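import Pool.Agent.Work.MP_8efaaa_nt.O.Main

set_option autoImplicit false

/-!
# O/Count (M): many small multiples

`count`: at least `κ X ^ (1/2 - ε) / a` squarefree congruent multiples `n ≤ X` of `a` in the class of `c`: apply `main_all` to `a l`
for the primes `l ≤ Y = x ^ (1 / (2 + ε)) / (K a)` which do not divide `2 a`; each `n ≤ X` is hit by at most `log X / log 2` of them.
-/

namespace Pool.Agent.Work.MP_8efaaa_nt.O

open Finset

/-- squarefree congruent multiple of `a` in the class of `c` -/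
def Good (a c n : ℕ) : Prop :=
  Squarefree n ∧ a ∣ n ∧ n % 8 = c % 8 ∧ (2 ∣ c → n % 16 = c % 16) ∧ IsCongruent n

private theorem two_pow_card_le {m : ℕ} (hm : m ≠ 0) : 2 ^ m.primeFactors.card ≤ m := by
  calc 2 ^ m.primeFactors.card = ∏ _p ∈ m.primeFactors, 2 := by rw [prod_const]
    _ ≤ ∏ p ∈ m.primeFactors, p :=
        Finset.prod_le_prod' (fun p hp => (Nat.prime_of_mem_primeFactors hp).two_le)
    _ ≤ m := Nat.le_of_dvd (Nat.pos_of_ne_zero hm) (Nat.prod_primeFactors_dvd m)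

private theorem card_pf_le {m : ℕ} (hm : m ≠ 0) {x : ℝ} (hx : (m : ℝ) ≤ x) :
    (m.primeFactors.card : ℝ) ≤ Real.log x / Real.log 2 := by
  have hl2 : 0 < Real.log 2 := Real.log_pos one_lt_two
  rw [le_div_iff₀ hl2]
  have h2 : (2 : ℝ) ^ m.primeFactors.card ≤ x :=
    le_trans (by exact_mod_cast two_pow_card_le hm) hx
  have h3 := Real.log_le_log (by positivity) h2
  rwa [Real.log_pow] at h3

private theorem pi_lower {Y : ℕ} {x : ℝ} (hY : 4 ≤ Y) (hYx : (Y : ℝ) ≤ x) :
    (Y : ℝ) / (8 * Real.log x) ≤ Nat.primeCounting Y := by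
  have hYr : (4 : ℝ) ≤ Y := by exact_mod_cast hY
  have hlY : 0 < Real.log Y := Real.log_pos (by linarith)
  have hlx : Real.log Y ≤ Real.log x := Real.log_le_log (by linarith) hYx
  have h1 := Chebyshev.pi_ge Y
  refine le_trans ?_ h1
  have h2 : Real.log ((Y : ℝ) + 1) ≤ 2 * Real.log 2 + ((Y : ℝ) - 3) / 4 := by
    have h3 : Real.log ((Y : ℝ) + 1) = Real.log 4 + Real.log (((Y : ℝ) + 1) / 4) := by
      rw [← Real.log_mul (by norm_num) (by positivity)]
      congr 1
      field_simp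
    have h4 : Real.log 4 = 2 * Real.log 2 := by
      rw [show (4 : ℝ) = 2 ^ 2 by norm_num, Real.log_pow]
      norm_num
    have h5 := Real.log_le_sub_one_of_pos (show 0 < ((Y : ℝ) + 1) / 4 by positivity)
    rw [h3, h4]
    linarith
  have h3 : (Y : ℝ) / 8 ≤ Y * Real.log 2 - Real.log ((Y : ℝ) + 1) := by
    have h4 := Real.log_two_gt_d9
    have h5 := Real.log_two_lt_d9
    nlinarith
  calc (Y : ℝ) / (8 * Real.log x) ≤ (Y : ℝ) / (8 * Real.log Y) :=
        div_le_div_of_nonneg_left (by positivity) (by positivity) (by linarith)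
    _ = (Y : ℝ) / 8 / Real.log Y := by rw [div_div]
    _ ≤ (Y * Real.log 2 - Real.log ((Y : ℝ) + 1)) / Real.log Y :=
        div_le_div_of_nonneg_right h3 hlY.le

/-- the pigeonhole over the primes `l` -/
private theorem pigeon {a c X Y : ℕ} (ha : Squarefree a) (hX : (2 * a : ℝ) ≤ X)
    (h : ∀ l : ℕ, l.Prime → l ≤ Y → ¬ l ∣ 2 * a → ∃ n, n ≤ X ∧ Good a c n ∧ l ∣ n) :
    (Nat.primeCounting Y : ℝ) - Real.log X / Real.log 2 ≤
      Real.log X / Real.log 2 * ({n : ℕ | n ≤ X ∧ Good a c n}.ncard : ℝ) := by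
  classical
  have ha0 : a ≠ 0 := ha.ne_zero
  set S : Finset ℕ := (range (X + 1)).filter (fun n => Good a c n) with hS
  have hSset : {n : ℕ | n ≤ X ∧ Good a c n} = (S : Set ℕ) := by
    ext n
    simp only [hS, Set.mem_ofPred_eq, coe_filter, mem_range]
    constructor
    · rintro ⟨h1, h2⟩
      exact ⟨by omega, h2⟩
    · rintro ⟨h1, h2⟩
      exact ⟨by omega, h2⟩
  rw [hSset, Set.ncard_coe_finset]
  set P : Finset ℕ := Nat.primesLE Y \ (2 * a).primeFactors with hP
  have hex : ∀ l ∈ P, ∃ n ∈ S, l ∣ n := by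
    intro l hl
    rw [hP, mem_sdiff, Nat.mem_primesLE, Nat.mem_primeFactors] at hl
    obtain ⟨⟨hlY, hlp⟩, hnd⟩ := hl
    obtain ⟨n, hn1, hn2, hn3⟩ := h l hlp hlY (fun hd => hnd ⟨hlp, hd, by positivity⟩)
    refine ⟨n, ?_, hn3⟩
    rw [hS, mem_filter, mem_range]
    exact ⟨by omega, hn2⟩
  choose! f hf1 hf2 using hex
  have h1 : (P.card : ℝ) ≤ Real.log X / Real.log 2 * S.card := by
    rw [card_eq_sum_card_fiberwise (f := f) (t := S) hf1]
    push_cast
    calc ∑ b ∈ S, ((P.filter (fun l => f l = b)).card : ℝ)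
        ≤ ∑ _b ∈ S, Real.log X / Real.log 2 := by
          apply Finset.sum_le_sum
          intro b hb
          rw [hS, mem_filter, mem_range] at hb
          obtain ⟨hbX, hbG⟩ := hb
          have hb0 : b ≠ 0 := hbG.1.ne_zero
          refine le_trans ?_ (card_pf_le hb0 (x := (X : ℝ)) (by exact_mod_cast (by omega : b ≤ X)))
          have : P.filter (fun l => f l = b) ⊆ b.primeFactors := by
            intro l hl
            rw [mem_filter] at hl
            have h3 := hf2 l hl.1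
            rw [hl.2] at h3
            have h4 := (mem_sdiff.mp hl.1).1
            rw [Nat.mem_primesLE] at h4
            exact Nat.mem_primeFactors.mpr ⟨h4.2, h3, hb0⟩
          exact_mod_cast Finset.card_le_card this
      _ = Real.log X / Real.log 2 * S.card := by
          rw [Finset.sum_const, nsmul_eq_mul, mul_comm]
  have h2 : (Nat.primeCounting Y : ℝ) - Real.log X / Real.log 2 ≤ P.card := by
    have h3 := Finset.le_card_sdiff (2 * a).primeFactors (Nat.primesLE Y)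
    rw [Nat.primesLE_card_eq_primeCounting, ← hP] at h3
    have h4 : (Nat.primeCounting Y : ℝ) ≤ P.card + (2 * a).primeFactors.card := by
      exact_mod_cast (by omega : Nat.primeCounting Y ≤ P.card + (2 * a).primeFactors.card)
    have h5 := card_pf_le (m := 2 * a) (by positivity) (x := (X : ℝ)) (by push_cast; exact hX)
    linarith
  linarith

theorem count (ε : ℝ) (hε : 0 < ε) : ∃ κ : ℝ, 0 < κ ∧ ∀ a : ℕ, Squarefree a → ∀ c : ℕ, ¬ 4 ∣ c →
    (2 ∣ a → 2 ∣ c) → ∀ X : ℕ, (a : ℝ) ≤ κ * (X : ℝ) ^ (1 / 2 - ε) →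
      κ * (X : ℝ) ^ (1 / 2 - ε) / a ≤ ({n : ℕ | n ≤ X ∧ Good a c n}.ncard : ℝ) := by
  obtain ⟨K0, hK0⟩ := main_all ε hε
  obtain ⟨K, hK1, hKK⟩ : ∃ K : ℝ, 1 ≤ K ∧ K0 ≤ K := ⟨max K0 1, le_max_right _ _, le_max_left _ _⟩
  have hl2 : 0 < Real.log 2 := Real.log_pos one_lt_two
  set C : ℝ := 1536 * K / (ε ^ 2 * Real.log 2) + 5 * K + 16 with hC
  have hCa : 1536 * K / (ε ^ 2 * Real.log 2) ≤ C := by
    have : 0 ≤ 5 * K := by linarith
    rw [hC]; linarith
  have hpos1 : 0 ≤ 1536 * K / (ε ^ 2 * Real.log 2) := by positivity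
  have hCb : 5 * K ≤ C := by rw [hC]; linarith
  have hC16 : 16 ≤ C := by rw [hC]; linarith
  have hC0 : 0 < C := by linarith
  set X0 : ℝ := max (C ^ (4 / ε)) 16 with hX0
  have hX016 : 16 ≤ X0 := le_max_right _ _
  have hX0C : C ^ (4 / ε) ≤ X0 := le_max_left _ _
  have hX0pos : 0 < X0 := by linarith
  have hX0half : 4 ≤ X0 ^ (1 / 2 : ℝ) := by
    calc (4 : ℝ) = (16 : ℝ) ^ (1 / 2 : ℝ) := by
          rw [show (16 : ℝ) = 4 ^ (2 : ℝ) by norm_num, ← Real.rpow_mul (by norm_num)]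
          norm_num
      _ ≤ X0 ^ (1 / 2 : ℝ) := Real.rpow_le_rpow (by norm_num) hX016 (by norm_num)
  refine ⟨1 / X0 ^ (1 / 2 : ℝ), by positivity, fun a ha c hc4 hac X haX => ?_⟩
  have ha0 : 0 < a := Nat.pos_of_ne_zero ha.ne_zero
  have ha1 : (1 : ℝ) ≤ a := by exact_mod_cast ha0
  set x : ℝ := (X : ℝ) with hx
  set κ : ℝ := 1 / X0 ^ (1 / 2 : ℝ) with hκ
  have hκ0 : 0 < κ := by positivity
  have hκ4 : κ ≤ 1 / 4 := by
    rw [hκ]; exact one_div_le_one_div_of_le (by norm_num) hX0half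
  have hXne : X ≠ 0 := by
    rintro h0
    have hx0 : x = 0 := by rw [hx, h0]; simp
    have h1 : x ^ (1 / 2 - ε) ≤ 1 := by
      rw [hx0]
      by_cases he : (1 / 2 - ε) = 0
      · rw [he, Real.rpow_zero]
      · rw [Real.zero_rpow he]; norm_num
    have h2 : 0 ≤ x ^ (1 / 2 - ε) := Real.rpow_nonneg (by rw [hx0]) _
    nlinarith
  have hx1 : 1 ≤ x := by rw [hx]; exact_mod_cast Nat.one_le_iff_ne_zero.mpr hXne
  have hx0 : 0 < x := by linarith
  set q : ℝ := x ^ (1 / 2 - ε) with hq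
  have hq0 : 0 < q := Real.rpow_pos_of_pos hx0 _
  have hqhalf : q ≤ x ^ (1 / 2 : ℝ) := Real.rpow_le_rpow_of_exponent_le hx1 (by linarith)
  -- x is large
  have hxX0 : X0 ≤ x := by
    have h1 : 1 ≤ κ * x ^ (1 / 2 : ℝ) := by
      have : κ * q ≤ κ * x ^ (1 / 2 : ℝ) := mul_le_mul_of_nonneg_left hqhalf hκ0.le
      linarith
    have h2 : X0 ^ (1 / 2 : ℝ) ≤ x ^ (1 / 2 : ℝ) := by
      rw [hκ, one_div_mul_eq_div, le_div_iff₀ (by positivity)] at h1
      linarith
    exact (Real.rpow_le_rpow_iff hX0pos.le hx0.le (by norm_num)).mp h2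
  have hxe : C ≤ x ^ (ε / 4) := by
    calc C = (C ^ (4 / ε)) ^ (ε / 4) := by
          rw [← Real.rpow_mul hC0.le]
          have : 4 / ε * (ε / 4) = 1 := by field_simp
          rw [this, Real.rpow_one]
      _ ≤ x ^ (ε / 4) := Real.rpow_le_rpow (by positivity) (hX0C.trans hxX0) (by positivity)
  have hx2 : x ^ (ε / 2) = x ^ (ε / 4) * x ^ (ε / 4) := by
    rw [← Real.rpow_add hx0]; congr 1; ring
  have hxe4 : 0 < x ^ (ε / 4) := Real.rpow_pos_of_pos hx0 _
  have hlog1 : 1 ≤ Real.log x := by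
    have h1 : Real.log 16 ≤ Real.log x := Real.log_le_log (by norm_num) (hX016.trans hxX0)
    have h2 : Real.log 16 = 4 * Real.log 2 := by
      rw [show (16 : ℝ) = 2 ^ 4 by norm_num, Real.log_pow]; norm_num
    have h3 := Real.log_two_gt_d9
    linarith
  have hlogx : Real.log x ^ 2 ≤ 64 / ε ^ 2 * x ^ (ε / 4) := by
    have h1 := Real.log_le_rpow_div hx0.le (show 0 < ε / 8 by positivity)
    have h2 : Real.log x ^ 2 ≤ (x ^ (ε / 8) / (ε / 8)) ^ 2 :=
      pow_le_pow_left₀ (by linarith) h1 2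
    refine h2.trans (le_of_eq ?_)
    have h3 : x ^ (ε / 4) = x ^ (ε / 8) * x ^ (ε / 8) := by
      rw [← Real.rpow_add hx0]; congr 1; ring
    rw [h3]
    field_simp
    ring
  have hbig : 24 * K * Real.log x ^ 2 / Real.log 2 ≤ x ^ (ε / 2) := by
    calc 24 * K * Real.log x ^ 2 / Real.log 2
        ≤ 24 * K * (64 / ε ^ 2 * x ^ (ε / 4)) / Real.log 2 := by
          apply div_le_div_of_nonneg_right _ hl2.le
          apply mul_le_mul_of_nonneg_left hlogx (by positivity)
      _ = 1536 * K / (ε ^ 2 * Real.log 2) * x ^ (ε / 4) := by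
          field_simp
          ring
      _ ≤ C * x ^ (ε / 4) := mul_le_mul_of_nonneg_right hCa hxe4.le
      _ ≤ x ^ (ε / 4) * x ^ (ε / 4) := mul_le_mul_of_nonneg_right hxe hxe4.le
      _ = x ^ (ε / 2) := hx2.symm
  have hbig5 : 5 * K ≤ x ^ (ε / 2) := by
    rw [hx2]
    nlinarith
  -- the quotient
  set s : ℝ := q / a with hs
  have hs1 : 1 ≤ s := by
    rw [hs, le_div_iff₀ (by linarith)]
    nlinarith
  have haq : (a : ℝ) ≤ q := by nlinarith
  have h2a : (2 * a : ℝ) ≤ x := by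
    have h1 : x ^ (1 / 2 : ℝ) * x ^ (1 / 2 : ℝ) = x := by
      rw [← Real.rpow_add hx0]; norm_num
    have h2 : 4 ≤ x ^ (1 / 2 : ℝ) := hX0half.trans (Real.rpow_le_rpow hX0pos.le hxX0 (by norm_num))
    nlinarith
  set z : ℝ := x ^ (1 / (2 + ε)) with hz
  have hz0 : 0 < z := Real.rpow_pos_of_pos hx0 _
  have hzq : q * x ^ (ε / 2) ≤ z := by
    rw [hq, hz, ← Real.rpow_add hx0]
    apply Real.rpow_le_rpow_of_exponent_le hx1
    rw [le_div_iff₀ (by positivity)]
    nlinarith
  set Y : ℕ := ⌊z / (K * a)⌋₊ with hY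
  have hKa : 0 < K * a := by positivity
  have hYle : (Y : ℝ) ≤ z / (K * a) := Nat.floor_le (by positivity)
  have hYge : s * x ^ (ε / 2) / K - 1 ≤ Y := by
    have h1 := (Nat.lt_floor_add_one (z / (K * a))).le
    have h2 : s * x ^ (ε / 2) / K ≤ z / (K * a) := by
      rw [hs, div_mul_eq_mul_div, div_div, mul_comm (a : ℝ) K]
      exact div_le_div_of_nonneg_right hzq hKa.le
    rw [← hY] at h1
    linarith
  have hKpos : 0 < K := by linarith
  have hY4 : 4 ≤ Y := by
    have h1 : 5 ≤ s * x ^ (ε / 2) / K := by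
      rw [le_div_iff₀ hKpos]
      have : x ^ (ε / 2) ≤ s * x ^ (ε / 2) :=
        le_mul_of_one_le_left (Real.rpow_pos_of_pos hx0 _).le hs1
      linarith
    have h2 : (4 : ℝ) ≤ Y := by linarith
    exact_mod_cast h2
  have hzx : z ≤ x := by
    calc z = x ^ (1 / (2 + ε)) := rfl
      _ ≤ x ^ (1 : ℝ) := Real.rpow_le_rpow_of_exponent_le hx1 (by
          rw [div_le_one (by positivity)]; linarith)
      _ = x := Real.rpow_one x
  have hYx : (Y : ℝ) ≤ x := by
    refine hYle.trans (le_trans ?_ hzx)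
    apply div_le_self hz0.le
    nlinarith
  -- the multiples
  have hmult : ∀ l : ℕ, l.Prime → l ≤ Y → ¬ l ∣ 2 * a → ∃ n, n ≤ X ∧ Good a c n ∧ l ∣ n := by
    intro l hl hlY hnd
    have hl2' : ¬ l ∣ 2 := fun h => hnd (Dvd.dvd.mul_right h a)
    have hla : ¬ l ∣ a := fun h => hnd (Dvd.dvd.mul_left h 2)
    have hcop : Nat.Coprime a l := (Nat.Coprime.symm ((Nat.Prime.coprime_iff_not_dvd hl).mpr hla))
    have hsq : Squarefree (a * l) := (Nat.squarefree_mul hcop).mpr ⟨ha, hl.prime.squarefree⟩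
    have heven : 2 ∣ a * l → 2 ∣ c := by
      intro h
      rcases Nat.prime_two.dvd_mul.mp h with h1 | h1
      · exact hac h1
      · exfalso
        have := (Nat.prime_dvd_prime_iff_eq Nat.prime_two hl).mp h1
        exact hl2' (by rw [← this])
    obtain ⟨n, h1, h2, h3, h4, h5, h6⟩ := hK0 (a * l) hsq c hc4 heven
    refine ⟨n, ?_, ⟨h1, (dvd_mul_right a l).trans h2, h3, h4, h6⟩, (dvd_mul_left l a).trans h2⟩
    have h7 : ((a * l : ℕ) : ℝ) ≤ z / K := by
      push_cast
      have h8 : (l : ℝ) ≤ z / (K * a) := le_trans (by exact_mod_cast hlY) hYle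
      calc (a : ℝ) * l ≤ a * (z / (K * a)) := mul_le_mul_of_nonneg_left h8 (by positivity)
        _ = z / K := by field_simp
    have h8 : ((a * l : ℕ) : ℝ) ^ (2 + ε) ≤ x / K := by
      calc ((a * l : ℕ) : ℝ) ^ (2 + ε) ≤ (z / K) ^ (2 + ε) :=
            Real.rpow_le_rpow (by positivity) h7 (by positivity)
        _ = x / K ^ (2 + ε) := by
            rw [Real.div_rpow hz0.le hKpos.le, hz, ← Real.rpow_mul hx0.le]
            congr 1
            rw [one_div, inv_mul_cancel₀ (by positivity), Real.rpow_one]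
        _ ≤ x / K := by
            apply div_le_div_of_nonneg_left hx0.le hKpos
            calc K = K ^ (1 : ℝ) := (Real.rpow_one K).symm
              _ ≤ K ^ (2 + ε) := Real.rpow_le_rpow_of_exponent_le hK1 (by linarith)
    have h9 : (n : ℝ) ≤ X := by
      calc (n : ℝ) ≤ K0 * ((a * l : ℕ) : ℝ) ^ (2 + ε) := h5
        _ ≤ K * ((a * l : ℕ) : ℝ) ^ (2 + ε) := mul_le_mul_of_nonneg_right hKK (by positivity)
        _ ≤ K * (x / K) := mul_le_mul_of_nonneg_left h8 hKpos.le
        _ = X := by rw [mul_div_cancel₀ _ hKpos.ne']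
    exact_mod_cast h9
  have hpig := pigeon (c := c) ha h2a hmult
  have hpi := pi_lower hY4 hYx
  set n0 : ℝ := ({n : ℕ | n ≤ X ∧ Good a c n}.ncard : ℝ) with hn0
  rw [← hx] at hpig
  -- final computation
  have hlpos : 0 < Real.log x := by linarith
  have g1 : Y / (8 * Real.log x) - Real.log x / Real.log 2 ≤ Real.log x / Real.log 2 * n0 := by
    linarith
  have g2 : Y * (Real.log 2 / (8 * Real.log x ^ 2)) - 1 ≤ n0 := by
    have h1 : 0 < Real.log x / Real.log 2 := by positivity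
    have h2 := div_le_div_of_nonneg_right g1 h1.le
    have h3 : Real.log x / Real.log 2 * n0 / (Real.log x / Real.log 2) = n0 := by
      field_simp
    have h4 : (Y / (8 * Real.log x) - Real.log x / Real.log 2) / (Real.log x / Real.log 2)
        = Y * (Real.log 2 / (8 * Real.log x ^ 2)) - 1 := by
      field_simp
    rw [h3, h4] at h2
    exact h2
  set T : ℝ := Real.log 2 / (8 * Real.log x ^ 2) with hT
  have hT0 : 0 < T := by positivity
  have hT1 : T ≤ 1 := by
    rw [hT, div_le_one (by positivity)]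
    have := Real.log_two_lt_d9
    nlinarith
  have g3 : 3 ≤ x ^ (ε / 2) / K * T := by
    have h1 : 24 * K * Real.log x ^ 2 / Real.log 2 / K * T ≤ x ^ (ε / 2) / K * T :=
      mul_le_mul_of_nonneg_right (div_le_div_of_nonneg_right hbig hKpos.le) hT0.le
    refine le_trans (le_of_eq ?_) h1
    rw [hT]
    field_simp
    ring
  have g4 : 3 * s ≤ s * x ^ (ε / 2) / K * T := by
    have : s * x ^ (ε / 2) / K * T = s * (x ^ (ε / 2) / K * T) := by ring
    rw [this]
    nlinarith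
  have g5 : (s * x ^ (ε / 2) / K - 1) * T ≤ Y * T := mul_le_mul_of_nonneg_right hYge hT0.le
  have g6 : s ≤ n0 := by nlinarith
  calc κ * q / a = κ * s := by rw [hs]; ring
    _ ≤ 1 * s := mul_le_mul_of_nonneg_right (by linarith) (by linarith)
    _ = s := one_mul s
    _ ≤ n0 := g6

end Pool.Agent.Work.MP_8efaaa_nt.O
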