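import Pool.Agent.Work.MP_8efaaa_nt.O.Defs

set_option autoImplicit false

/-!
# O/Div (S-M): divisibility of the bilinear form

`b = A X X' - B Y Y' - C Z Z'`.
* `dvd_a`: `D ∣ A`, `σ = 1` or `-1`, `D ∣ B Y - σ α Z`, `D ∣ B Y' - σ α Z'`: modulo `D`,
  `B (B Y Y' + C Z Z') = (B Y) (B Y') + B C Z Z' = (α ^ 2 + B C) Z Z' = 0`, `B` is coprime to `D`, `D ∣ A`.
* `dvd_b`: `B ∣ A X - β Z`, `B ∣ A X' - β Z'`: `A b = (A X) (A X') - A C Z Z' - B (...)= (β ^ 2 - A C) Z Z' = 0` modulo `B`.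
* `dvd_c`: `D ∣ C`, `D ∣ A X - σ γ Y`, `D ∣ A X' - σ γ Y'`: `A b = (γ ^ 2 - A B) Y Y' = 0` modulo `D`, `A` is coprime to `D`.
* `dvd_all`: `A1, A2, B, C1, C2` are pairwise coprime (`A1 * A2 ∣ A`, `C1 * C2 ∣ C`, squarefree, coprime), so the product divides `b`.
-/

namespace Pool.Agent.Work.MP_8efaaa_nt.O

private theorem dvd_a {A B C : ℕ} {α : ℤ} (cAB : Nat.Coprime A B)
    (rA : (A : ℤ) ∣ α ^ 2 + B * C) {D : ℕ} (hD : D ∣ A) {s : ℤ} (hs : s ^ 2 = 1)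
    {X Y Z X' Y' Z' : ℤ} (h1 : (D : ℤ) ∣ B * Y - s * α * Z) (h2 : (D : ℤ) ∣ B * Y' - s * α * Z') :
    (D : ℤ) ∣ (A : ℤ) * X * X' - B * Y * Y' - C * Z * Z' := by
  have hDA : (D : ℤ) ∣ A := by exact_mod_cast hD
  have hco : IsCoprime (D : ℤ) (B : ℤ) :=
    Nat.isCoprime_iff_coprime.mpr (Nat.Coprime.coprime_dvd_left hD cAB)
  apply hco.dvd_of_dvd_mul_left
  obtain ⟨u, hu⟩ := h1
  obtain ⟨u', hu'⟩ := h2
  have e : (B : ℤ) * (A * X * X' - B * Y * Y' - C * Z * Z') =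
      A * (B * X * X') - D * (u * s * α * Z' + B * Y * u') - (α ^ 2 + B * C) * (Z * Z') := by
    linear_combination (-(s * α * Z')) * hu - (B * Y) * hu' - (α ^ 2 * Z * Z') * hs
  rw [e]
  exact dvd_sub (dvd_sub (hDA.mul_right _) (dvd_mul_right _ _)) ((hDA.trans rA).mul_right _)

private theorem dvd_b {A B C : ℕ} {β : ℤ} (cAB : Nat.Coprime A B)
    (rB : (B : ℤ) ∣ β ^ 2 - A * C)
    {X Y Z X' Y' Z' : ℤ} (h1 : (B : ℤ) ∣ A * X - β * Z) (h2 : (B : ℤ) ∣ A * X' - β * Z') :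
    (B : ℤ) ∣ (A : ℤ) * X * X' - B * Y * Y' - C * Z * Z' := by
  have hco : IsCoprime (B : ℤ) (A : ℤ) := Nat.isCoprime_iff_coprime.mpr cAB.symm
  apply hco.dvd_of_dvd_mul_left
  obtain ⟨u, hu⟩ := h1
  obtain ⟨u', hu'⟩ := h2
  have e : (A : ℤ) * (A * X * X' - B * Y * Y' - C * Z * Z') =
      (β ^ 2 - A * C) * (Z * Z') + B * (u * β * Z' + A * X * u' - A * Y * Y') := by
    linear_combination (β * Z') * hu + (A * X) * hu'
  rw [e]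
  exact dvd_add (rB.mul_right _) (dvd_mul_right _ _)

private theorem dvd_c {A B C : ℕ} {γ : ℤ} (cAC : Nat.Coprime A C)
    (rC : (C : ℤ) ∣ γ ^ 2 - A * B) {D : ℕ} (hD : D ∣ C) {s : ℤ} (hs : s ^ 2 = 1)
    {X Y Z X' Y' Z' : ℤ} (h1 : (D : ℤ) ∣ A * X - s * γ * Y) (h2 : (D : ℤ) ∣ A * X' - s * γ * Y') :
    (D : ℤ) ∣ (A : ℤ) * X * X' - B * Y * Y' - C * Z * Z' := by
  have hDC : (D : ℤ) ∣ C := by exact_mod_cast hD
  have hco : IsCoprime (D : ℤ) (A : ℤ) :=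
    Nat.isCoprime_iff_coprime.mpr (Nat.Coprime.coprime_dvd_left hD cAC.symm)
  apply hco.dvd_of_dvd_mul_left
  obtain ⟨u, hu⟩ := h1
  obtain ⟨u', hu'⟩ := h2
  have e : (A : ℤ) * (A * X * X' - B * Y * Y' - C * Z * Z') =
      (γ ^ 2 - A * B) * (Y * Y') + D * (u * s * γ * Y' + A * X * u') - C * (A * Z * Z') := by
    linear_combination (s * γ * Y') * hu + (A * X) * hu' + (γ ^ 2 * Y * Y') * hs
  rw [e]
  exact dvd_sub (dvd_add ((hDC.trans rC).mul_right _) (dvd_mul_right _ _)) (hDC.mul_right _)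

theorem dvd_all {A B C k : ℕ} {α β γ ρ : ℤ} (h : Dat A B C k α β γ ρ) {A1 A2 C1 C2 : ℕ}
    (hA : A1 * A2 ∣ A) (hC : C1 * C2 ∣ C) {X Y Z X' Y' Z' : ℤ}
    (a1 : (A1 : ℤ) ∣ B * Y - α * Z) (a1' : (A1 : ℤ) ∣ B * Y' - α * Z')
    (a2 : (A2 : ℤ) ∣ B * Y + α * Z) (a2' : (A2 : ℤ) ∣ B * Y' + α * Z')
    (b : (B : ℤ) ∣ A * X - β * Z) (b' : (B : ℤ) ∣ A * X' - β * Z')
    (c1 : (C1 : ℤ) ∣ A * X - γ * Y) (c1' : (C1 : ℤ) ∣ A * X' - γ * Y')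
    (c2 : (C2 : ℤ) ∣ A * X + γ * Y) (c2' : (C2 : ℤ) ∣ A * X' + γ * Y') :
    ((A1 * A2 * B * (C1 * C2) : ℕ) : ℤ) ∣ (A : ℤ) * X * X' - B * Y * Y' - C * Z * Z' := by
  have dA1 : A1 ∣ A := (dvd_mul_right _ _).trans hA
  have dA2 : A2 ∣ A := (dvd_mul_left _ _).trans hA
  have dC1 : C1 ∣ C := (dvd_mul_right _ _).trans hC
  have dC2 : C2 ∣ C := (dvd_mul_left _ _).trans hC
  have p1 : (A1 : ℤ) ∣ (A : ℤ) * X * X' - B * Y * Y' - C * Z * Z' :=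
    dvd_a h.cAB h.rA dA1 (s := 1) (by norm_num) (by simpa using a1) (by simpa using a1')
  have p2 : (A2 : ℤ) ∣ (A : ℤ) * X * X' - B * Y * Y' - C * Z * Z' :=
    dvd_a h.cAB h.rA dA2 (s := -1) (by norm_num) (by simpa using a2) (by simpa using a2')
  have p3 : (B : ℤ) ∣ (A : ℤ) * X * X' - B * Y * Y' - C * Z * Z' := dvd_b h.cAB h.rB b b'
  have p4 : (C1 : ℤ) ∣ (A : ℤ) * X * X' - B * Y * Y' - C * Z * Z' :=
    dvd_c h.cAC h.rC dC1 (s := 1) (by norm_num) (by simpa using c1) (by simpa using c1')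
  have p5 : (C2 : ℤ) ∣ (A : ℤ) * X * X' - B * Y * Y' - C * Z * Z' :=
    dvd_c h.cAC h.rC dC2 (s := -1) (by norm_num) (by simpa using c2) (by simpa using c2')
  have k1 : IsCoprime (A1 : ℤ) (A2 : ℤ) :=
    Nat.isCoprime_iff_coprime.mpr (Nat.coprime_of_squarefree_mul (h.sA.squarefree_of_dvd hA))
  have k2 : IsCoprime (C1 : ℤ) (C2 : ℤ) :=
    Nat.isCoprime_iff_coprime.mpr (Nat.coprime_of_squarefree_mul (h.sC.squarefree_of_dvd hC))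
  have k3 : IsCoprime ((A1 : ℤ) * A2) (B : ℤ) := by
    have := Nat.isCoprime_iff_coprime.mpr (Nat.Coprime.coprime_dvd_left hA h.cAB)
    push_cast at this
    exact this
  have k4 : IsCoprime ((A1 : ℤ) * A2 * B) ((C1 : ℤ) * C2) := by
    have h1 : Nat.Coprime (A1 * A2 * B) (C1 * C2) :=
      Nat.Coprime.mul_left (Nat.Coprime.coprime_dvd_left hA (Nat.Coprime.coprime_dvd_right hC h.cAC))
        (Nat.Coprime.coprime_dvd_right hC h.cBC)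
    have := Nat.isCoprime_iff_coprime.mpr h1
    push_cast at this
    exact this
  push_cast
  exact k4.mul_dvd (k3.mul_dvd (k1.mul_dvd p1 p2) p3) (k2.mul_dvd p4 p5)

end Pool.Agent.Work.MP_8efaaa_nt.O
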