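import Pool.Agent.Work.MP_8efaaa_nt.O.Defs

/-!
# O/Neigh (S-M): two small solutions which are almost orthogonal are proportional

`par_of_orth`: `b = A X X' - B Y Y' - C Z Z'`.  If `b = 0` then, with `f(P) = f(P') = 0`,
`(A X ^ 2 - C Z ^ 2) (A X' ^ 2 - C Z' ^ 2) - (A X X' - C Z Z') ^ 2 = - A C (X Z' - Z X') ^ 2` and the left side is
`(B Y ^ 2) (B Y' ^ 2) - (B Y Y') ^ 2 = 0`; so `X Z' = Z X'`.  In the same way `X Y' = Y X'` with `A X ^ 2 - B Y ^ 2 = C Z ^ 2`.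

`neigh`: write `X = 2 ^ (2 k - 1) X1` etc.  Then `b(P, P') = 4 ^ (2 k - 1) b1` with `b1` an integer (`2 ^ (2k-1) * 2 ^ (2k-1) = 4 ^ (2k-1)`).
`M` is odd and divides `b(P, P')`, so `M ∣ b1`.  If `b1 ≠ 0` then `|b(P, P')| ≥ 4 ^ (2 k - 1) M`, so
`4 ^ (2 k - 1) A B C ≤ 4 ^ (2 k - 1) M p ≤ |b(P, P')| p`.  On the other hand `(A X X') ^ 2 ≤ (4 ^ k A B C) ^ 2`,
`(B Y Y') ^ 2 ≤ (2 ^ (2 k - 1) A B C) ^ 2`, `(C Z Z') ^ 2 ≤ (2 ^ (2 k - 1) A B C) ^ 2`, so `|b(P, P')| ≤ 2 * 4 ^ k A B C`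
(`2 * 2 ^ (2 k - 1) = 4 ^ k`).  Hence `4 ^ (2 k - 1) ≤ 2 * 4 ^ k p`, i.e. `4 ^ (k - 1) ≤ 2 p`, a contradiction.  So `b = 0`.
-/

set_option autoImplicit false

namespace Pool.Agent.Work.MP_8efaaa_nt.O

theorem par_of_orth {A B C : ℕ} (hA : 0 < A) (hB : 0 < B) (hC : 0 < C) {X Y Z X' Y' Z' : ℤ}
    (h : (A : ℤ) * X ^ 2 = B * Y ^ 2 + C * Z ^ 2) (h' : (A : ℤ) * X' ^ 2 = B * Y' ^ 2 + C * Z' ^ 2)
    (hb : (A : ℤ) * X * X' - B * Y * Y' - C * Z * Z' = 0) : Par X Y Z X' Y' Z' := by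
  have hAz : (0 : ℤ) < A := by exact_mod_cast hA
  have hBz : (0 : ℤ) < B := by exact_mod_cast hB
  have hCz : (0 : ℤ) < C := by exact_mod_cast hC
  constructor
  · have h1 : (A * B : ℤ) * (X * Y' - Y * X') ^ 2 = 0 := by
      have e : -((A * B : ℤ) * (X * Y' - Y * X') ^ 2) =
          (A * X ^ 2 - B * Y ^ 2) * (A * X' ^ 2 - B * Y' ^ 2) -
            (A * X * X' - B * Y * Y') ^ 2 := by ring
      have e1 : (A : ℤ) * X ^ 2 - B * Y ^ 2 = C * Z ^ 2 := by linarith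
      have e2 : (A : ℤ) * X' ^ 2 - B * Y' ^ 2 = C * Z' ^ 2 := by linarith
      have e3 : (A : ℤ) * X * X' - B * Y * Y' = C * Z * Z' := by linarith
      rw [e1, e2, e3] at e
      linarith [e, (by ring : (C * Z ^ 2 : ℤ) * (C * Z' ^ 2) - (C * Z * Z') ^ 2 = 0)]
    have h2 : (X * Y' - Y * X') ^ 2 = 0 := by
      rcases mul_eq_zero.mp h1 with h | h
      · exact absurd h (mul_pos hAz hBz).ne'
      · exact h
    have h3 := pow_eq_zero_iff (n := 2) (by norm_num) |>.mp h2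
    linarith
  · have h1 : (A * C : ℤ) * (X * Z' - Z * X') ^ 2 = 0 := by
      have e : -((A * C : ℤ) * (X * Z' - Z * X') ^ 2) =
          (A * X ^ 2 - C * Z ^ 2) * (A * X' ^ 2 - C * Z' ^ 2) -
            (A * X * X' - C * Z * Z') ^ 2 := by ring
      have e1 : (A : ℤ) * X ^ 2 - C * Z ^ 2 = B * Y ^ 2 := by linarith
      have e2 : (A : ℤ) * X' ^ 2 - C * Z' ^ 2 = B * Y' ^ 2 := by linarith
      have e3 : (A : ℤ) * X * X' - C * Z * Z' = B * Y * Y' := by linarith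
      rw [e1, e2, e3] at e
      linarith [e, (by ring : (B * Y ^ 2 : ℤ) * (B * Y' ^ 2) - (B * Y * Y') ^ 2 = 0)]
    have h2 : (X * Z' - Z * X') ^ 2 = 0 := by
      rcases mul_eq_zero.mp h1 with h | h
      · exact absurd h (mul_pos hAz hCz).ne'
      · exact h
    have h3 := pow_eq_zero_iff (n := 2) (by norm_num) |>.mp h2
    linarith

private theorem abs_mul_le {x y N : ℤ} (hN : 0 ≤ N) (hx : x ^ 2 ≤ N) (hy : y ^ 2 ≤ N) :
    |x * y| ≤ N := by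
  have h1 : |x * y| ^ 2 ≤ N ^ 2 := by
    rw [sq_abs, mul_pow, sq N]
    exact mul_le_mul hx hy (sq_nonneg _) hN
  exact (pow_le_pow_iff_left₀ (abs_nonneg _) hN (by norm_num)).mp h1

theorem neigh {A B C k M p : ℕ} (hA : 0 < A) (hB : 0 < B) (hC : 0 < C) (hk : 2 ≤ k)
    (hp : 2 * p < 4 ^ (k - 1)) (hM : M % 2 = 1) (hMp : A * B * C ≤ M * p) {X Y Z X' Y' Z' : ℤ}
    (s : Sol A B C k X Y Z) (s' : Sol A B C k X' Y' Z') (w : Dv k X Y Z) (w' : Dv k X' Y' Z')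
    (hb : (M : ℤ) ∣ (A : ℤ) * X * X' - B * Y * Y' - C * Z * Z') : Par X Y Z X' Y' Z' := by
  have hAz : (0 : ℤ) < A := by exact_mod_cast hA
  have hBz : (0 : ℤ) < B := by exact_mod_cast hB
  have hCz : (0 : ℤ) < C := by exact_mod_cast hC
  refine par_of_orth hA hB hC s.eq s'.eq ?_
  by_contra hne
  set b : ℤ := (A : ℤ) * X * X' - B * Y * Y' - C * Z * Z' with hbdef
  obtain ⟨⟨X1, hX1⟩, ⟨Y1, hY1⟩, ⟨Z1, hZ1⟩⟩ := w
  obtain ⟨⟨X2, hX2⟩, ⟨Y2, hY2⟩, ⟨Z2, hZ2⟩⟩ := w'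
  have e4 : (4 : ℤ) ^ (2 * k - 1) = 2 ^ (2 * k - 1) * 2 ^ (2 * k - 1) := by
    rw [← mul_pow]
    norm_num
  have hb1 : b = 4 ^ (2 * k - 1) * (A * X1 * X2 - B * Y1 * Y2 - C * Z1 * Z2) := by
    rw [hbdef, hX1, hX2, hY1, hY2, hZ1, hZ2, e4]
    ring
  set b1 : ℤ := A * X1 * X2 - B * Y1 * Y2 - C * Z1 * Z2 with hb1def
  have hMb1 : (M : ℤ) ∣ b1 := by
    have hco : IsCoprime (M : ℤ) (4 ^ (2 * k - 1)) := by
      have h1 : Nat.Coprime M (4 ^ (2 * k - 1)) := by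
        have h2 : Nat.Coprime M 2 := Nat.coprime_two_right.mpr (Nat.odd_iff.mpr hM)
        have h3 : Nat.Coprime M (2 ^ 2) := Nat.Coprime.pow_right 2 h2
        exact Nat.Coprime.pow_right _ (by simpa using h3)
      have := Nat.isCoprime_iff_coprime.mpr h1
      push_cast at this
      exact this
    rw [hb1] at hb
    exact hco.dvd_of_dvd_mul_left hb
  have hb1ne : b1 ≠ 0 := by
    intro h0
    apply hne
    rw [hb1, h0, mul_zero]
  have h1 : (M : ℤ) ≤ |b1| := by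
    have := Int.le_of_dvd (abs_pos.mpr hb1ne) ((dvd_abs _ _).mpr hMb1)
    exact this
  have h2 : (4 : ℤ) ^ (2 * k - 1) * M ≤ |b| := by
    rw [hb1, abs_mul, abs_of_pos (by positivity : (0 : ℤ) < 4 ^ (2 * k - 1))]
    exact mul_le_mul_of_nonneg_left h1 (by positivity)
  -- upper bound
  have hT : (4 : ℤ) ^ k = 2 * 2 ^ (2 * k - 1) := by
    rw [← pow_succ', show 2 * k - 1 + 1 = 2 * k by omega, pow_mul]
    norm_num
  set T : ℤ := 2 ^ (2 * k - 1) with hTdef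
  have hT0 : 0 < T := by positivity
  have u1 : |(A : ℤ) * X * X'| ≤ 2 * T * A * B * C := by
    have : |X * X'| ≤ 4 ^ k * B * C := abs_mul_le (by positivity) s.bX s'.bX
    rw [mul_assoc, abs_mul, abs_of_pos hAz]
    calc (A : ℤ) * |X * X'| ≤ A * (4 ^ k * B * C) := mul_le_mul_of_nonneg_left this hAz.le
      _ = 2 * T * A * B * C := by rw [hT]; ring
  have u2 : |(B : ℤ) * Y * Y'| ≤ T * A * B * C := by
    have : |Y * Y'| ≤ T * A * C := abs_mul_le (by positivity) s.bY s'.bY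
    rw [mul_assoc, abs_mul, abs_of_pos hBz]
    calc (B : ℤ) * |Y * Y'| ≤ B * (T * A * C) := mul_le_mul_of_nonneg_left this hBz.le
      _ = T * A * B * C := by ring
  have u3 : |(C : ℤ) * Z * Z'| ≤ T * A * B * C := by
    have : |Z * Z'| ≤ T * A * B := abs_mul_le (by positivity) s.bZ s'.bZ
    rw [mul_assoc, abs_mul, abs_of_pos hCz]
    calc (C : ℤ) * |Z * Z'| ≤ C * (T * A * B) := mul_le_mul_of_nonneg_left this hCz.le
      _ = T * A * B * C := by ring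
  have u : |b| ≤ 4 * T * (A * B * C) := by
    rw [hbdef]
    have a1 := abs_sub ((A : ℤ) * X * X' - B * Y * Y') (C * Z * Z')
    have a2 := abs_sub ((A : ℤ) * X * X') (B * Y * Y')
    have : (4 : ℤ) * T * (A * B * C) = 2 * T * A * B * C + T * A * B * C + T * A * B * C := by ring
    linarith
  have h3 : (4 : ℤ) ^ (2 * k - 1) * (A * B * C) ≤ 4 * T * (A * B * C) * p := by
    have hMp' : (A * B * C : ℤ) ≤ M * p := by exact_mod_cast hMp
    calc (4 : ℤ) ^ (2 * k - 1) * (A * B * C) ≤ 4 ^ (2 * k - 1) * (M * p) :=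
          mul_le_mul_of_nonneg_left hMp' (by positivity)
      _ = (4 ^ (2 * k - 1) * M) * p := by ring
      _ ≤ |b| * p := mul_le_mul_of_nonneg_right h2 (by positivity)
      _ ≤ (4 * T * (A * B * C)) * p := mul_le_mul_of_nonneg_right u (by positivity)
  have hABC : (0 : ℤ) < A * B * C := by positivity
  have h4 : (4 : ℤ) ^ (2 * k - 1) ≤ 4 * T * p := by
    have : (4 : ℤ) ^ (2 * k - 1) * (A * B * C) ≤ (4 * T * p) * (A * B * C) := by
      calc _ ≤ _ := h3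
        _ = _ := by ring
    exact le_of_mul_le_mul_right this hABC
  have h5 : (4 : ℤ) ^ (2 * k - 1) = 4 ^ k * 4 ^ (k - 1) := by
    rw [← pow_add]
    congr 1
    omega
  rw [h5, hT] at h4
  have h6 : (2 * (p : ℤ)) < 4 ^ (k - 1) := by exact_mod_cast hp
  have h7 : 2 * T * (2 * (p : ℤ)) < 2 * T * 4 ^ (k - 1) := mul_lt_mul_of_pos_left h6 (by positivity)
  have h8 : 2 * T * (2 * (p : ℤ)) = 4 * T * p := by ring
  linarith

end Pool.Agent.Work.MP_8efaaa_nt.O
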