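import Pool.Agent.Work.MP_8efaaa_nt.O.Thue
import Pool.Agent.Work.MP_8efaaa_nt.O.Neigh
import Pool.Agent.Work.MP_8efaaa_nt.O.Div
import Pool.Agent.Work.MP_8efaaa_nt.G.Number

set_option autoImplicit false

/-!
# O/Chain (M): some small solution is not divisible by `2 ^ (2 k - 1)`

Suppose that every solution in the box which lies in some `InL A1 A2 B C1 C2` (`A1 A2 = A`, `C1 C2 = C`) has `Dv`.
`X ≠ 0` for every `Sol` (if `X = 0` then `B Y ^ 2 + C Z ^ 2 = 0`).  Let `P0 = (X0, Y0, Z0)` be a solution in `InL A 1 B C 1` (`thueO`).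
CLAIM: for all `A1 A2 = A`, `C1 C2 = C` every solution `P` in the box in `InL A1 A2 B C1 C2` satisfies `Par P P0`.  Strong induction on
`A2 * C2`.  If `A2 * C2 = 1` then `A1 = A`, `C1 = C`, `A2 = C2 = 1` and `P`, `P0` are in the same lattice: `dvd_all` with
`A1 = A, A2 = 1, C1 = C, C2 = 1`, `neigh` with `M = A * B * C`, `p = 1`.  Otherwise a prime `p` divides `A2` or `C2`.  If `A2 = p * A2'`,
take `P'` in `InL (A1 * p) A2' B C1 C2` by `thueO`; `Par P' P0` by induction; `P` and `P'` satisfy `a1` for `A1`, `a2` for `A2'`, `b`,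
`c1`, `c2`, so by `dvd_all` `M = A1 * A2' * B * (C1 * C2)` divides `b(P, P')`, `M * p = A B C`, `M` is odd, `2 p < 4 ^ (k - 1)`
(hypothesis, `p ∣ A * C`): `neigh` gives `Par P P'`.  `Par` is transitive (first coordinates nonzero).  Same for `C2 = p * C2'`.
END: `(X0, -Y0, Z0)` is a solution in the box and lies in `InL 1 A B 1 C`.  So `Par X0 (-Y0) Z0 X0 Y0 Z0`: `X0 * Y0 = - Y0 * X0`, `Y0 = 0`,
`A X0 ^ 2 = C Z0 ^ 2`, `(A X0) ^ 2 = (A C) Z0 ^ 2`, so the squarefree number `A C` is `1` (`G.squarefree_mul_sq` in `G/Number.lean`), a contradiction.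
-/

namespace Pool.Agent.Work.MP_8efaaa_nt.O

private theorem sol_ne {A B C k : ℕ} {α β γ ρ : ℤ} (h : Dat A B C k α β γ ρ) {X Y Z : ℤ}
    (s : Sol A B C k X Y Z) : X ≠ 0 := by
  intro h0
  have he := s.eq
  rw [h0] at he
  have hBz : (0 : ℤ) < B := by exact_mod_cast h.hB
  have hCz : (0 : ℤ) < C := by exact_mod_cast h.hC
  have p1 : (0 : ℤ) ≤ B * Y ^ 2 := by positivity
  have p2 : (0 : ℤ) ≤ C * Z ^ 2 := by positivity
  have e0 : (A : ℤ) * 0 ^ 2 = 0 := by ring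
  have z1 : (B : ℤ) * Y ^ 2 = 0 := by linarith
  have z2 : (C : ℤ) * Z ^ 2 = 0 := by linarith
  have hY : Y = 0 := by
    rcases mul_eq_zero.mp z1 with hc | hc
    · exact absurd hc hBz.ne'
    · exact pow_eq_zero_iff (n := 2) (by norm_num) |>.mp hc
  have hZ : Z = 0 := by
    rcases mul_eq_zero.mp z2 with hc | hc
    · exact absurd hc hCz.ne'
    · exact pow_eq_zero_iff (n := 2) (by norm_num) |>.mp hc
  exact s.ne (by rw [h0, hY, hZ])

private theorem par_trans {X Y Z X' Y' Z' X0 Y0 Z0 : ℤ} (hX' : X' ≠ 0)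
    (h1 : Par X Y Z X' Y' Z') (h2 : Par X' Y' Z' X0 Y0 Z0) : Par X Y Z X0 Y0 Z0 := by
  obtain ⟨a1, a2⟩ := h1
  obtain ⟨b1, b2⟩ := h2
  constructor
  · apply mul_left_cancel₀ hX'
    linear_combination X * b1 + X0 * a1
  · apply mul_left_cancel₀ hX'
    linear_combination X * b2 + X0 * a2

private theorem step {A B C k : ℕ} {α β γ ρ : ℤ} (h : Dat A B C k α β γ ρ) {A1 A2 C1 C2 p : ℕ}
    (hA : A1 * A2 ∣ A) (hC : C1 * C2 ∣ C) (hM : A1 * A2 * B * (C1 * C2) * p = A * B * C)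
    (hp : 2 * p < 4 ^ (k - 1)) {X Y Z X' Y' Z' : ℤ}
    (s : Sol A B C k X Y Z) (s' : Sol A B C k X' Y' Z') (w : Dv k X Y Z) (w' : Dv k X' Y' Z')
    (a1 : (A1 : ℤ) ∣ B * Y - α * Z) (a1' : (A1 : ℤ) ∣ B * Y' - α * Z')
    (a2 : (A2 : ℤ) ∣ B * Y + α * Z) (a2' : (A2 : ℤ) ∣ B * Y' + α * Z')
    (b : (B : ℤ) ∣ A * X - β * Z) (b' : (B : ℤ) ∣ A * X' - β * Z')
    (c1 : (C1 : ℤ) ∣ A * X - γ * Y) (c1' : (C1 : ℤ) ∣ A * X' - γ * Y')
    (c2 : (C2 : ℤ) ∣ A * X + γ * Y) (c2' : (C2 : ℤ) ∣ A * X' + γ * Y') :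
    Par X Y Z X' Y' Z' := by
  have hodd : (A * B * C) % 2 = 1 := by
    rw [Nat.mul_mod, Nat.mul_mod A B, h.oA, h.oB, h.oC]
  have hMo : (A1 * A2 * B * (C1 * C2)) % 2 = 1 := by
    rcases Nat.mod_two_eq_zero_or_one (A1 * A2 * B * (C1 * C2)) with h0 | h0
    · rw [← hM, Nat.mul_mod, h0] at hodd
      simp at hodd
    · exact h0
  exact neigh h.hA h.hB h.hC h.hk hp hMo hM.ge s s' w w'
    (dvd_all h hA hC a1 a1' a2 a2' b b' c1 c1' c2 c2')

/-- all solutions are proportional to the one in the first lattice -/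
private theorem claim {A B C k : ℕ} {α β γ ρ : ℤ} (h : Dat A B C k α β γ ρ)
    (hp : ∀ p : ℕ, p.Prime → p ∣ A * C → 2 * p < 4 ^ (k - 1))
    (H : ∀ X Y Z : ℤ, Sol A B C k X Y Z → (2 ^ k : ℤ) ∣ Y → (2 ^ (2 * k - 1) : ℤ) ∣ X - ρ * Z →
      Dv k X Y Z) {X0 Y0 Z0 : ℤ} (s0 : Sol A B C k X0 Y0 Z0)
    (l0 : InL A 1 B C 1 k α β γ ρ X0 Y0 Z0) :
    ∀ n A1 A2 C1 C2 : ℕ, A1 * A2 = A → C1 * C2 = C → A2 * C2 = n → ∀ X Y Z : ℤ,
      Sol A B C k X Y Z → InL A1 A2 B C1 C2 k α β γ ρ X Y Z → Par X Y Z X0 Y0 Z0 := by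
  intro n
  induction n using Nat.strong_induction_on with
  | _ n ih =>
    intro A1 A2 C1 C2 hA hC hn X Y Z s l
    have w : Dv k X Y Z := H X Y Z s l.y l.x
    have hAz : (A1 : ℤ) * A2 = A := by exact_mod_cast hA
    have lb := l.b
    have lc1 := l.c1
    have lc2 := l.c2
    rw [hAz] at lb lc1 lc2
    by_cases hn1 : A2 * C2 = 1
    · have hA2 : A2 = 1 := Nat.eq_one_of_mul_eq_one_right hn1
      have hC2 : C2 = 1 := Nat.eq_one_of_mul_eq_one_left hn1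
      subst hA2 hC2
      rw [mul_one] at hA hC
      subst hA hC
      have w0 : Dv k X0 Y0 Z0 := H _ _ _ s0 l0.y l0.x
      have hk := h.hk
      have hp1 : 2 * 1 < 4 ^ (k - 1) := by
        calc 2 * 1 < 4 ^ 1 := by norm_num
          _ ≤ 4 ^ (k - 1) := Nat.pow_le_pow_right (by norm_num) (by omega)
      have lb0 := l0.b
      have lc10 := l0.c1
      have lc20 := l0.c2
      rw [hAz] at lb0 lc10 lc20
      exact step h (A1 := A1) (A2 := 1) (C1 := C1) (C2 := 1) (by rw [mul_one]) (by rw [mul_one])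
        (by ring) hp1 s s0 w w0 l.a1 l0.a1 l.a2 l0.a2 lb lb0 lc1 lc10 lc2 lc20
    · obtain ⟨p, hpp, hpd⟩ := Nat.exists_prime_and_dvd hn1
      have hA2pos : 0 < A2 := Nat.pos_of_ne_zero (by
        rintro rfl
        have := h.hA
        rw [mul_zero] at hA
        omega)
      have hC2pos : 0 < C2 := Nat.pos_of_ne_zero (by
        rintro rfl
        have := h.hC
        rw [mul_zero] at hC
        omega)
      have hpAC : p ∣ A * C := by
        refine hpd.trans ?_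
        rw [← hA, ← hC]
        exact mul_dvd_mul (dvd_mul_left _ _) (dvd_mul_left _ _)
      have hp2 := hp p hpp hpAC
      rcases (Nat.Prime.dvd_mul hpp).mp hpd with hd | hd
      · obtain ⟨A2', rfl⟩ := hd
        have hA' : A1 * p * A2' = A := by rw [← hA]; ring
        obtain ⟨X', Y', Z', s', l'⟩ := thueO h (A1 * p) A2' C1 C2 hA' hC
        have hlt : A2' * C2 < n := by
          have hA2' : 0 < A2' := Nat.pos_of_mul_pos_left hA2pos
          have := hpp.two_le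
          rw [← hn]
          have : 0 < A2' * C2 := Nat.mul_pos hA2' hC2pos
          nlinarith
        have h1 := ih _ hlt (A1 * p) A2' C1 C2 hA' hC rfl X' Y' Z' s' l'
        have w' : Dv k X' Y' Z' := H _ _ _ s' l'.y l'.x
        have hAz' : ((A1 * p : ℕ) : ℤ) * A2' = A := by exact_mod_cast hA'
        have lb' := l'.b
        have lc1' := l'.c1
        have lc2' := l'.c2
        rw [hAz'] at lb' lc1' lc2'
        have ha1' : (A1 : ℤ) ∣ B * Y' - α * Z' :=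
          (by push_cast; exact dvd_mul_right _ _ : (A1 : ℤ) ∣ ((A1 * p : ℕ) : ℤ)).trans l'.a1
        have ha2 : (A2' : ℤ) ∣ B * Y + α * Z :=
          (by push_cast; exact dvd_mul_left _ _ : (A2' : ℤ) ∣ ((p * A2' : ℕ) : ℤ)).trans l.a2
        refine par_trans (sol_ne h s') ?_ h1
        exact step h (A1 := A1) (A2 := A2') (C1 := C1) (C2 := C2) (p := p)
          ⟨p, by rw [← hA]; ring⟩ ⟨1, by rw [hC, mul_one]⟩ (by rw [← hA, ← hC]; ring) hp2
          s s' w w' l.a1 ha1' ha2 l'.a2 lb lb' lc1 lc1' lc2 lc2'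
      · obtain ⟨C2', rfl⟩ := hd
        have hC' : C1 * p * C2' = C := by rw [← hC]; ring
        obtain ⟨X', Y', Z', s', l'⟩ := thueO h A1 A2 (C1 * p) C2' hA hC'
        have hlt : A2 * C2' < n := by
          have hC2' : 0 < C2' := Nat.pos_of_mul_pos_left hC2pos
          have := hpp.two_le
          rw [← hn]
          have : 0 < A2 * C2' := Nat.mul_pos hA2pos hC2'
          nlinarith
        have h1 := ih _ hlt A1 A2 (C1 * p) C2' hA hC' rfl X' Y' Z' s' l'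
        have w' : Dv k X' Y' Z' := H _ _ _ s' l'.y l'.x
        have lb' := l'.b
        have lc1' := l'.c1
        have lc2' := l'.c2
        rw [hAz] at lb' lc1' lc2'
        have hc1' : (C1 : ℤ) ∣ A * X' - γ * Y' :=
          (by push_cast; exact dvd_mul_right _ _ : (C1 : ℤ) ∣ ((C1 * p : ℕ) : ℤ)).trans lc1'
        have hc2 : (C2' : ℤ) ∣ A * X + γ * Y :=
          (by push_cast; exact dvd_mul_left _ _ : (C2' : ℤ) ∣ ((p * C2' : ℕ) : ℤ)).trans lc2
        refine par_trans (sol_ne h s') ?_ h1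
        exact step h (A1 := A1) (A2 := A2) (C1 := C1) (C2 := C2') (p := p)
          ⟨1, by rw [hA, mul_one]⟩ ⟨p, by rw [← hC]; ring⟩ (by rw [← hA, ← hC]; ring) hp2
          s s' w w' l.a1 l'.a1 l.a2 l'.a2 lb lb' lc1 hc1' hc2 lc2'

theorem exists_right {A B C k : ℕ} {α β γ ρ : ℤ} (h : Dat A B C k α β γ ρ) (hAC : A * C ≠ 1)
    (hp : ∀ p : ℕ, p.Prime → p ∣ A * C → 2 * p < 4 ^ (k - 1)) :
    ∃ X Y Z : ℤ, Sol A B C k X Y Z ∧ (2 ^ k : ℤ) ∣ Y ∧ (2 ^ (2 * k - 1) : ℤ) ∣ X - ρ * Z ∧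
      ¬ Dv k X Y Z := by
  by_contra hcon
  have H : ∀ X Y Z : ℤ, Sol A B C k X Y Z → (2 ^ k : ℤ) ∣ Y →
      (2 ^ (2 * k - 1) : ℤ) ∣ X - ρ * Z → Dv k X Y Z := by
    intro X Y Z s hy hx
    by_contra hd
    exact hcon ⟨X, Y, Z, s, hy, hx, hd⟩
  obtain ⟨X0, Y0, Z0, s0, l0⟩ := thueO h A 1 C 1 (mul_one _) (mul_one _)
  have s1 : Sol A B C k X0 (-Y0) Z0 := by
    refine ⟨fun h0 => s0.ne ?_, by rw [neg_sq]; exact s0.eq, s0.bX, by rw [neg_sq]; exact s0.bY,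
      s0.bZ⟩
    simp only [Prod.mk.injEq, neg_eq_zero] at h0 ⊢
    exact h0
  have lb := l0.b
  have lc1 := l0.c1
  have e1 : ((A : ℤ) * ((1 : ℕ) : ℤ)) = ((1 : ℕ) : ℤ) * A := mul_comm _ _
  rw [e1] at lb lc1
  have l1 : InL 1 A B 1 C k α β γ ρ X0 (-Y0) Z0 := by
    refine ⟨by simp, ?_, lb, by simp, ?_, ?_, l0.x⟩
    · obtain ⟨u, hu⟩ := l0.a1
      exact ⟨-u, by linear_combination -hu⟩
    · obtain ⟨u, hu⟩ := lc1
      exact ⟨u, by linear_combination hu⟩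
    · exact (dvd_neg).mpr l0.y
  obtain ⟨q1, -⟩ := claim h hp H s0 l0 (A * C) 1 A 1 C (one_mul _) (one_mul _) rfl
    X0 (-Y0) Z0 s1 l1
  have hX0 := sol_ne h s0
  have hY0 : Y0 = 0 := by
    have : X0 * Y0 = 0 := by linarith
    exact (mul_eq_zero.mp this).resolve_left hX0
  have he := s0.eq
  rw [hY0] at he
  have heN : A * X0.natAbs ^ 2 = C * Z0.natAbs ^ 2 := by
    have : (A : ℤ) * (X0.natAbs : ℤ) ^ 2 = C * (Z0.natAbs : ℤ) ^ 2 := by
      rw [Int.natAbs_sq, Int.natAbs_sq]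
      linarith
    exact_mod_cast this
  have hz : Z0.natAbs ≠ 0 := by
    intro h0
    rw [h0] at heN
    have hA := h.hA
    have : A * X0.natAbs ^ 2 = 0 := by rw [heN]; ring
    rcases Nat.mul_eq_zero.mp this with h1 | h1
    · omega
    · exact hX0 (Int.natAbs_eq_zero.mp (pow_eq_zero_iff (n := 2) (by norm_num) |>.mp h1))
  exact hAC (G.squarefree_mul_sq (m := A * C) (z := Z0.natAbs) (w := A * X0.natAbs)
    ((Nat.squarefree_mul h.cAC).mpr ⟨h.sA, h.sC⟩) hz (by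
      calc A * C * Z0.natAbs ^ 2 = A * (C * Z0.natAbs ^ 2) := by ring
        _ = A * (A * X0.natAbs ^ 2) := by rw [heN]
        _ = (A * X0.natAbs) ^ 2 := by ring))

end Pool.Agent.Work.MP_8efaaa_nt.O
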