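import Mathlib

set_option autoImplicit false

/-!
# MP_8efaaa_nt, block O (odd classes): definitions (fixed file)

The conic is `A X ^ 2 = B Y ^ 2 + C Z ^ 2`, `A, B, C` odd, squarefree, pairwise coprime, `A = C (mod 8)`.  We need a small primitive
solution with `Y` even.  `InL A1 A2 B C1 C2 k α β γ ρ` is the lattice with `A = A1 * A2`, `C = C1 * C2`, where the root at the primes of
`A2` and of `C2` is taken with the opposite sign.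
-/

namespace Pool.Agent.Work.MP_8efaaa_nt.O

/-- the data of the conic `A X ^ 2 = B Y ^ 2 + C Z ^ 2` -/
structure Dat (A B C k : ℕ) (α β γ ρ : ℤ) : Prop where
  hA : 0 < A
  hB : 0 < B
  hC : 0 < C
  oA : A % 2 = 1
  oB : B % 2 = 1
  oC : C % 2 = 1
  sA : Squarefree A
  sB : Squarefree B
  sC : Squarefree C
  cAB : Nat.Coprime A B
  cAC : Nat.Coprime A C
  cBC : Nat.Coprime B C
  rA : (A : ℤ) ∣ α ^ 2 + B * C
  rB : (B : ℤ) ∣ β ^ 2 - A * C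
  rC : (C : ℤ) ∣ γ ^ 2 - A * B
  r2 : (4 ^ k : ℤ) ∣ A * ρ ^ 2 - C
  hk : 2 ≤ k

/-- the lattice (the root is changed at the primes of `A2` and of `C2`) -/
structure InL (A1 A2 B C1 C2 k : ℕ) (α β γ ρ X Y Z : ℤ) : Prop where
  a1 : (A1 : ℤ) ∣ B * Y - α * Z
  a2 : (A2 : ℤ) ∣ B * Y + α * Z
  b : (B : ℤ) ∣ A1 * A2 * X - β * Z
  c1 : (C1 : ℤ) ∣ A1 * A2 * X - γ * Y
  c2 : (C2 : ℤ) ∣ A1 * A2 * X + γ * Y
  y : (2 ^ k : ℤ) ∣ Y
  x : (2 ^ (2 * k - 1) : ℤ) ∣ X - ρ * Z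

/-- a nonzero solution of the conic in the box -/
structure Sol (A B C k : ℕ) (X Y Z : ℤ) : Prop where
  ne : (X, Y, Z) ≠ (0, 0, 0)
  eq : (A : ℤ) * X ^ 2 = B * Y ^ 2 + C * Z ^ 2
  bX : X ^ 2 ≤ 4 ^ k * B * C
  bY : Y ^ 2 ≤ 2 ^ (2 * k - 1) * A * C
  bZ : Z ^ 2 ≤ 2 ^ (2 * k - 1) * A * B

/-- proportional (for vectors with nonzero first coordinate) -/
def Par (X Y Z X' Y' Z' : ℤ) : Prop := X * Y' = Y * X' ∧ X * Z' = Z * X'

/-- all coordinates are divisible by `2 ^ (2 * k - 1)` -/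
def Dv (k : ℕ) (X Y Z : ℤ) : Prop :=
  (2 ^ (2 * k - 1) : ℤ) ∣ X ∧ (2 ^ (2 * k - 1) : ℤ) ∣ Y ∧ (2 ^ (2 * k - 1) : ℤ) ∣ Z

end Pool.Agent.Work.MP_8efaaa_nt.O
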