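import Pool.Agent.Work.MP_8efaaa_nt.O.MainNat

set_option autoImplicit false

/-!
# O/Main (S-M): real exponents, all classes

ODD `c` (then `a` is odd).  `r = ⌈2 / ε⌉₊ + 3`, `H = ⌈a ^ (ε / 2)⌉₊ ≤ 2 a ^ (ε / 2)`.  The primes `p ∣ a` with `p > H` are at most
`2 / ε` many if `a > 1`: `a ^ (j ε / 2) ≤ ∏ p ≤ a`.  `main_natO` for `a ≠ 1`; the bound is
`64 * 16 ^ 3 * (7 * 3 ^ r) ^ (5 r) * (27 * 3 ^ (5 r)) ^ ω(a) * H * a ^ 2` and `G.pow_omega_le` for the base `27 * 3 ^ (5 r)` and `ε / 2`.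
For `a = 1` use the result for `a = 3` (`1 ∣ n`, constant `K * 3 ^ (2 + ε)`).
EVEN `c`, `4 ∤ c`: `G.main` (`G/Main.lean`).
-/

namespace Pool.Agent.Work.MP_8efaaa_nt.O

open Finset

/-- few large primes -/
private theorem card_large {a H : ℕ} {δ : ℝ} (hδ : 0 < δ) (ha : 1 < a) (hH : (a : ℝ) ^ δ ≤ H) :
    ((a.primeFactors.filter (fun p => H < p)).card : ℝ) ≤ 1 / δ := by
  set S := a.primeFactors.filter (fun p => H < p) with hS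
  have har : (1 : ℝ) < a := by exact_mod_cast ha
  have h1 : ((a : ℝ) ^ δ) ^ S.card ≤ a := by
    calc ((a : ℝ) ^ δ) ^ S.card = ∏ _p ∈ S, (a : ℝ) ^ δ := by rw [Finset.prod_const]
      _ ≤ ∏ p ∈ S, (p : ℝ) := by
          apply Finset.prod_le_prod
          · intro p _; positivity
          · intro p hp
            have h2 : H < p := (mem_filter.mp hp).2
            have h3 : (H : ℝ) ≤ p := by exact_mod_cast h2.le
            exact hH.trans h3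
      _ = ((∏ p ∈ S, p : ℕ) : ℝ) := by push_cast; rfl
      _ ≤ a := by
          have h2 : ∏ p ∈ S, p ∣ ∏ p ∈ a.primeFactors, p :=
            Finset.prod_dvd_prod_of_subset _ _ _ (Finset.filter_subset _ _)
          exact_mod_cast Nat.le_of_dvd (by omega) (h2.trans (Nat.prod_primeFactors_dvd a))
  rw [← Real.rpow_natCast ((a : ℝ) ^ δ), ← Real.rpow_mul (by linarith)] at h1
  have h2 : (a : ℝ) ^ (δ * S.card) ≤ (a : ℝ) ^ (1 : ℝ) := by rwa [Real.rpow_one]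
  have h3 : δ * S.card ≤ 1 := (Real.rpow_le_rpow_left_iff har).mp h2
  rw [le_div_iff₀ hδ]
  linarith

private theorem mainO_ne (ε : ℝ) (hε : 0 < ε) : ∃ K : ℝ, ∀ a : ℕ, Squarefree a → a % 2 = 1 →
    a ≠ 1 → ∀ c : ℕ, c % 2 = 1 → ∃ n : ℕ, Squarefree n ∧ a ∣ n ∧ n % 8 = c % 8 ∧
      (n : ℝ) ≤ K * (a : ℝ) ^ (2 + ε) ∧ IsCongruent n := by
  have hδ : 0 < ε / 2 := by positivity
  set r : ℕ := ⌈1 / (ε / 2)⌉₊ + 3 with hr
  obtain ⟨K, hK1, hK⟩ := G.pow_omega_le (27 * 3 ^ (5 * r)) (Nat.one_le_iff_ne_zero.mpr (by positivity))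
    (ε / 2) hδ
  refine ⟨64 * 16 ^ 3 * (7 * 3 ^ r) ^ (5 * r) * K * 2, fun a ha hao ha1 c hc => ?_⟩
  have ha0 : 0 < a := Nat.pos_of_ne_zero ha.ne_zero
  have ha2 : 1 < a := by omega
  have har : (1 : ℝ) < a := by exact_mod_cast ha2
  set H : ℕ := ⌈(a : ℝ) ^ (ε / 2)⌉₊ with hH
  have h1 : (1 : ℝ) ≤ (a : ℝ) ^ (ε / 2) := Real.one_le_rpow har.le hδ.le
  have hH1 : (a : ℝ) ^ (ε / 2) ≤ H := Nat.le_ceil _
  have hH2 : (H : ℝ) ≤ 2 * (a : ℝ) ^ (ε / 2) := by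
    have := Nat.ceil_lt_add_one (show (0 : ℝ) ≤ (a : ℝ) ^ (ε / 2) by positivity)
    linarith
  have hH0 : 1 ≤ H := by
    have : (1 : ℝ) ≤ H := h1.trans hH1
    exact_mod_cast this
  have hcard : (a.primeFactors.filter (fun p => H < p)).card + 3 ≤ r := by
    have h2 := card_large hδ ha2 hH1
    have h3 : ((a.primeFactors.filter (fun p => H < p)).card : ℝ) ≤ (⌈1 / (ε / 2)⌉₊ : ℝ) :=
      h2.trans (Nat.le_ceil _)
    have h4 : (a.primeFactors.filter (fun p => H < p)).card ≤ ⌈1 / (ε / 2)⌉₊ := by exact_mod_cast h3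
    omega
  obtain ⟨n, hns, hdn, hn8, hnle, hcong⟩ := main_natO a c r H ha hao ha1 hc hH0 hcard
  refine ⟨n, hns, hdn, hn8, ?_, hcong⟩
  set w := a.primeFactors.card with hw
  have e1 : ((7 * 3 ^ (w + r)) ^ r) ^ 5 * 27 ^ w
      = (7 * 3 ^ r) ^ (5 * r) * (27 * 3 ^ (5 * r)) ^ w := by
    have q1 : (7 * 3 ^ (w + r) : ℕ) = (7 * 3 ^ r) * 3 ^ w := by rw [pow_add]; ring
    rw [q1, ← pow_mul, mul_comm r 5, mul_pow (7 * 3 ^ r), mul_pow 27, ← pow_mul 3 w,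
      ← pow_mul 3 (5 * r) w, mul_comm w (5 * r)]
    ring
  have h5 : n ≤ 64 * 16 ^ 3 * (7 * 3 ^ r) ^ (5 * r) * (27 * 3 ^ (5 * r)) ^ w * H * a ^ 2 := by
    calc n ≤ 64 * 16 ^ 3 * ((7 * 3 ^ (w + r)) ^ r) ^ 5 * 27 ^ w * H * a ^ 2 := hnle
      _ = 64 * 16 ^ 3 * (((7 * 3 ^ (w + r)) ^ r) ^ 5 * 27 ^ w) * H * a ^ 2 := by ring
      _ = 64 * 16 ^ 3 * ((7 * 3 ^ r) ^ (5 * r) * (27 * 3 ^ (5 * r)) ^ w) * H * a ^ 2 := by rw [e1]
      _ = _ := by ring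
  have h6 : (n : ℝ) ≤ 64 * 16 ^ 3 * (7 * 3 ^ r) ^ (5 * r) * ((27 * 3 ^ (5 * r) : ℕ) : ℝ) ^ w * H *
      (a : ℝ) ^ 2 := by exact_mod_cast h5
  have h7 := hK a ha0
  have h8 : (a : ℝ) ^ (2 + ε) = (a : ℝ) ^ 2 * ((a : ℝ) ^ (ε / 2) * (a : ℝ) ^ (ε / 2)) := by
    rw [← Real.rpow_add (by linarith), ← Real.rpow_two, ← Real.rpow_add (by linarith)]
    congr 1
    ring
  calc (n : ℝ) ≤ 64 * 16 ^ 3 * (7 * 3 ^ r) ^ (5 * r) * ((27 * 3 ^ (5 * r) : ℕ) : ℝ) ^ w * H *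
        (a : ℝ) ^ 2 := h6
    _ ≤ 64 * 16 ^ 3 * (7 * 3 ^ r) ^ (5 * r) * (K * (a : ℝ) ^ (ε / 2)) * (2 * (a : ℝ) ^ (ε / 2)) *
        (a : ℝ) ^ 2 := by
        apply mul_le_mul_of_nonneg_right _ (by positivity)
        apply mul_le_mul _ hH2 (by positivity) (by positivity)
        apply mul_le_mul_of_nonneg_left h7 (by positivity)
    _ = 64 * 16 ^ 3 * (7 * 3 ^ r) ^ (5 * r) * K * 2 * (a : ℝ) ^ (2 + ε) := by
        rw [h8]; ring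

theorem mainO (ε : ℝ) (hε : 0 < ε) : ∃ K : ℝ, ∀ a : ℕ, Squarefree a → a % 2 = 1 →
    ∀ c : ℕ, c % 2 = 1 → ∃ n : ℕ, Squarefree n ∧ a ∣ n ∧ n % 8 = c % 8 ∧
      (n : ℝ) ≤ K * (a : ℝ) ^ (2 + ε) ∧ IsCongruent n := by
  obtain ⟨K, hK⟩ := mainO_ne ε hε
  refine ⟨max K (K * (3 : ℝ) ^ (2 + ε)), fun a ha hao c hc => ?_⟩
  have ha0 : 0 < a := Nat.pos_of_ne_zero ha.ne_zero
  have har : (0 : ℝ) < a := by exact_mod_cast ha0
  by_cases ha1 : a = 1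
  · subst ha1
    obtain ⟨n, hns, hdn, hn8, hnle, hcong⟩ := hK 3 (Nat.prime_three.prime.squarefree) (by norm_num)
      (by norm_num) c hc
    refine ⟨n, hns, one_dvd _, hn8, ?_, hcong⟩
    push_cast at hnle ⊢
    rw [Real.one_rpow, mul_one]
    exact hnle.trans (le_max_right _ _)
  · obtain ⟨n, hns, hdn, hn8, hnle, hcong⟩ := hK a ha hao ha1 c hc
    refine ⟨n, hns, hdn, hn8, ?_, hcong⟩
    exact hnle.trans (mul_le_mul_of_nonneg_right (le_max_left _ _) (by positivity))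

theorem main_all (ε : ℝ) (hε : 0 < ε) : ∃ K : ℝ, ∀ a : ℕ, Squarefree a → ∀ c : ℕ, ¬ 4 ∣ c →
    (2 ∣ a → 2 ∣ c) → ∃ n : ℕ, Squarefree n ∧ a ∣ n ∧ n % 8 = c % 8 ∧
      (2 ∣ c → n % 16 = c % 16) ∧ (n : ℝ) ≤ K * (a : ℝ) ^ (2 + ε) ∧ IsCongruent n := by
  obtain ⟨K1, hK1⟩ := mainO ε hε
  obtain ⟨K2, hK2⟩ := G.main ε hε
  refine ⟨max K1 K2, fun a ha c hc4 hac => ?_⟩
  have ha0 : 0 < a := Nat.pos_of_ne_zero ha.ne_zero
  have har : (0 : ℝ) < a := by exact_mod_cast ha0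
  by_cases hc : 2 ∣ c
  · obtain ⟨n, hns, hdn, hn16, hnle, hcong⟩ := hK2 a ha c (by omega)
    refine ⟨n, hns, hdn, by omega, fun _ => hn16, ?_, hcong⟩
    exact hnle.trans (mul_le_mul_of_nonneg_right (le_max_right _ _) (by positivity))
  · have hao : a % 2 = 1 := by
      by_contra h
      exact hc (hac (by omega))
    obtain ⟨n, hns, hdn, hn8, hnle, hcong⟩ := hK1 a ha hao c (by omega)
    refine ⟨n, hns, hdn, hn8, fun h => absurd h hc, ?_, hcong⟩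
    exact hnle.trans (mul_le_mul_of_nonneg_right (le_max_left _ _) (by positivity))

end Pool.Agent.Work.MP_8efaaa_nt.O
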