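import Pool.Agent.Work.MP_8efaaa_nt.Defs
import Pool.Agent.Work.MP_8efaaa_nt.G.Number

set_option autoImplicit false

/-!
# O/Number (M): from the primitive solution to a congruent number

Copy the proof of `G.conic_number` (`G/Number.lean`) from the point where the primitive solution is given; here the factor 2 is absent.
`x`, `z` are odd: `y` is even; if `x` is even then `C z ^ 2` is even, `z` even, contradiction to primitivity; same for `z`.
`y ^ 2 = 0 (mod 8)`: `A x ^ 2 = B y ^ 2 + C z ^ 2` modulo 8 with `x ^ 2 = z ^ 2 = 1`, `A = C` modulo 8 (from `A C = 1 (mod 8)`), `B` odd;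
so `4 ∣ y`.  `w = A x ^ 2 + B y ^ 2`, `C w = (A C) x ^ 2 + 8 (...) = 1 (mod 8)`.  `n` is the squarefree part of `C w`, `C w = s ^ 2 n`,
`s` odd, `n = 1 (mod 8)`.  Coprimality of `A B` with `C w`: as in `conic_number`.  Size: `w ≤ A (4 ^ k B C) + B (4 ^ k A C)`.
Congruent: area `u v (u ^ 2 - v ^ 2)` with `u = A x ^ 2`, `v = B y ^ 2`, `u - v = C z ^ 2`.
-/

namespace Pool.Agent.Work.MP_8efaaa_nt.O

theorem number (A B C k : ℕ) (hA : 0 < A) (hB : 0 < B) (hC : 0 < C)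
    (oA : A % 2 = 1) (oB : B % 2 = 1) (oC : C % 2 = 1)
    (sA : Squarefree A) (sB : Squarefree B) (sC : Squarefree C)
    (cAB : Nat.Coprime A B) (cAC : Nat.Coprime A C) (cBC : Nat.Coprime B C)
    (h8 : (A * C) % 8 = 1) {x y z : ℕ} (hx : 0 < x) (hy : 0 < y) (hz : 0 < z)
    (he : A * x ^ 2 = B * y ^ 2 + C * z ^ 2) (hxb : x ^ 2 ≤ 4 ^ k * B * C)
    (hyb : y ^ 2 ≤ 4 ^ k * A * C) (hy2 : y % 2 = 0)
    (hprim : ∀ p : ℕ, p.Prime → p ∣ x → p ∣ y → ¬ p ∣ z) :
    ∃ n : ℕ, Squarefree n ∧ Nat.Coprime (A * B) n ∧ n % 8 = 1 ∧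
      n ≤ 2 * 4 ^ k * A * B * C ^ 2 ∧ IsCongruent (A * B * n) := by
  -- parity
  obtain ⟨y0, hy0⟩ : 2 ∣ y := by omega
  have hy2' : 2 ∣ y := ⟨y0, hy0⟩
  have hBy2 : 2 ∣ B * y ^ 2 := Dvd.dvd.mul_left (dvd_pow hy2' (by norm_num)) _
  have hxo : x % 2 = 1 := by
    by_contra hcon
    have hx2 : 2 ∣ x := by omega
    have hCz : 2 ∣ C * z ^ 2 := by
      have h3 : 2 ∣ A * x ^ 2 := Dvd.dvd.mul_left (dvd_pow hx2 (by norm_num)) _
      rw [he] at h3
      exact (Nat.dvd_add_right hBy2).mp h3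
    have hz2 : 2 ∣ z := by
      rcases Nat.prime_two.dvd_mul.mp hCz with h5 | h5
      · omega
      · exact Nat.prime_two.dvd_of_dvd_pow h5
    exact hprim 2 Nat.prime_two hx2 hy2' hz2
  have hzo : z % 2 = 1 := by
    by_contra hcon
    have hz2 : 2 ∣ z := by omega
    have h3 : 2 ∣ A * x ^ 2 := by
      rw [he]
      exact dvd_add hBy2 (Dvd.dvd.mul_left (dvd_pow hz2 (by norm_num)) _)
    rcases Nat.prime_two.dvd_mul.mp h3 with h5 | h5
    · omega
    · have := Nat.prime_two.dvd_of_dvd_pow h5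
      omega
  have hx8 := G.odd_sq_mod8 hxo
  have hz8 := G.odd_sq_mod8 hzo
  have hy0e : y0 % 2 = 0 := by
    by_contra hcon
    have hy8 := G.odd_sq_mod8 (show y0 % 2 = 1 by omega)
    -- mod 8 : A = 4 B + C with A C = 1
    have hm : (A % 8) % 8 = (4 * (B % 8) + (C % 8)) % 8 := by
      have h3 : (A * x ^ 2) % 8 = (B * y ^ 2 + C * z ^ 2) % 8 := by rw [he]
      have h4 : (A * x ^ 2) % 8 = A % 8 := by rw [Nat.mul_mod, hx8]; omega
      have h5 : (B * y ^ 2) % 8 = (4 * B) % 8 := by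
        rw [hy0, show B * (2 * y0) ^ 2 = (4 * B) * y0 ^ 2 by ring, Nat.mul_mod, hy8]; omega
      have h6 : (C * z ^ 2) % 8 = C % 8 := by rw [Nat.mul_mod, hz8]; omega
      omega
    have h7 : ((A % 8) * (C % 8)) % 8 = 1 := by rw [← Nat.mul_mod]; exact h8
    have a1 : A % 8 < 8 := Nat.mod_lt _ (by norm_num)
    have a2 : B % 8 < 8 := Nat.mod_lt _ (by norm_num)
    have a3 : C % 8 < 8 := Nat.mod_lt _ (by norm_num)
    have a4 : (B % 8) % 2 = 1 := by omega
    revert hm h7 a1 a2 a3 a4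
    generalize A % 8 = a
    generalize B % 8 = b
    generalize C % 8 = c
    intro hm h7 a1 a2 a3 a4
    interval_cases a <;> interval_cases c <;> omega
  obtain ⟨y1, hy1⟩ : 2 ∣ y0 := by omega
  have hy4 : y = 4 * y1 := by rw [hy0, hy1]; ring
  set w := A * x ^ 2 + B * y ^ 2 with hw
  have hw0 : 0 < w := by positivity
  have hCw8 : (C * w) % 8 = 1 := by
    have e : C * w = (A * C) * x ^ 2 + 8 * (2 * (B * C * y1 ^ 2)) := by
      rw [hw, hy4]; ring
    rw [e, Nat.add_mul_mod_self_left, Nat.mul_mod, h8, hx8]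
  obtain ⟨n, s, hns, hsq⟩ := Nat.sq_mul_squarefree (C * w)
  have hn0 : 0 < n := Nat.pos_of_ne_zero hsq.ne_zero
  have hs0 : 0 < s := by
    apply Nat.pos_of_ne_zero; rintro rfl
    have : 0 < C * w := by positivity
    have h3 : (0 : ℕ) ^ 2 * n = 0 := by ring
    omega
  have hso : s % 2 = 1 := by
    by_contra hcon
    obtain ⟨s1, rfl⟩ : 2 ∣ s := by omega
    have : (2 * s1) ^ 2 * n = 2 * (2 * s1 ^ 2 * n) := by ring
    omega
  have hn8 : n % 8 = 1 := by
    have h3 := G.odd_sq_mod8 hso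
    have h4 : (s ^ 2 * n) % 8 = n % 8 := by rw [Nat.mul_mod, h3]; omega
    rw [hns] at h4
    omega
  refine ⟨n, hsq, ?_, hn8, ?_, ?_⟩
  · -- coprimality
    have hnd : n ∣ C * w := ⟨s ^ 2, by rw [← hns]; ring⟩
    apply Nat.Coprime.coprime_dvd_right hnd
    apply Nat.Coprime.mul_left
    · apply Nat.Coprime.mul_right cAC
      apply Nat.Coprime.symm
      apply Nat.coprime_of_dvd
      intro p hp hpw hpA
      have hpB : ¬ p ∣ B := fun h => hp.one_lt.ne' (Nat.eq_one_of_dvd_coprimes cAB hpA h)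
      have hpC : ¬ p ∣ C := fun h => hp.one_lt.ne' (Nat.eq_one_of_dvd_coprimes cAC hpA h)
      have h3 : p ∣ B * y ^ 2 := by
        rw [hw] at hpw
        exact (Nat.dvd_add_right (Dvd.dvd.mul_right hpA _)).mp hpw
      have hpy : p ∣ y := by
        rcases hp.dvd_mul.mp h3 with h4 | h4
        · exact absurd h4 hpB
        · exact hp.dvd_of_dvd_pow h4
      have hpz : p ∣ z := by
        have h4 : p ∣ A * x ^ 2 := Dvd.dvd.mul_right hpA _
        rw [he] at h4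
        have h5 := (Nat.dvd_add_right h3).mp h4
        rcases hp.dvd_mul.mp h5 with h6 | h6
        · exact absurd h6 hpC
        · exact hp.dvd_of_dvd_pow h6
      have hpx : p ∣ x := by
        apply G.prime_step hp sA hpA (s := x) _ rfl
        rw [he]
        exact dvd_add (Dvd.dvd.mul_left (pow_dvd_pow_of_dvd hpy 2) _)
          (Dvd.dvd.mul_left (pow_dvd_pow_of_dvd hpz 2) _)
      exact hprim p hp hpx hpy hpz
    · apply Nat.Coprime.mul_right cBC
      apply Nat.Coprime.symm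
      apply Nat.coprime_of_dvd
      intro p hp hpw hpB
      have hpA : ¬ p ∣ A := fun h => hp.one_lt.ne' (Nat.eq_one_of_dvd_coprimes cAB h hpB)
      have hpC : ¬ p ∣ C := fun h => hp.one_lt.ne' (Nat.eq_one_of_dvd_coprimes cBC hpB h)
      have h2By : p ∣ B * y ^ 2 := Dvd.dvd.mul_right hpB _
      have h3 : p ∣ A * x ^ 2 := by
        rw [hw] at hpw
        exact (Nat.dvd_add_left h2By).mp hpw
      have hpx : p ∣ x := by
        rcases hp.dvd_mul.mp h3 with h4 | h4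
        · exact absurd h4 hpA
        · exact hp.dvd_of_dvd_pow h4
      have hpz : p ∣ z := by
        have h4 := h3
        rw [he] at h4
        have h5 := (Nat.dvd_add_right h2By).mp h4
        rcases hp.dvd_mul.mp h5 with h6 | h6
        · exact absurd h6 hpC
        · exact hp.dvd_of_dvd_pow h6
      have hpy : p ∣ y := by
        apply G.prime_step hp sB hpB (s := y) _ rfl
        have h4 : p ^ 2 ∣ B * y ^ 2 + C * z ^ 2 := by
          rw [← he]; exact Dvd.dvd.mul_left (pow_dvd_pow_of_dvd hpx 2) _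
        exact (Nat.dvd_add_left (Dvd.dvd.mul_left (pow_dvd_pow_of_dvd hpz 2) _)).mp h4
      exact hprim p hp hpx hpy hpz
  · -- size
    have h3 : n ≤ C * w := by
      rw [← hns]
      exact Nat.le_mul_of_pos_left _ (by positivity)
    have h4 : w ≤ 2 * 4 ^ k * A * B * C := by
      have a1 : A * x ^ 2 ≤ A * (4 ^ k * B * C) := Nat.mul_le_mul_left _ hxb
      have a2 : B * y ^ 2 ≤ B * (4 ^ k * A * C) := Nat.mul_le_mul_left _ hyb
      have a3 : A * (4 ^ k * B * C) + B * (4 ^ k * A * C) = 2 * 4 ^ k * A * B * C := by ring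
      omega
    calc n ≤ C * w := h3
      _ ≤ C * (2 * 4 ^ k * A * B * C) := Nat.mul_le_mul_left _ h4
      _ = 2 * 4 ^ k * A * B * C ^ 2 := by ring
  · -- congruent
    refine isCongruent_of_area (m := ((A * x ^ 2 : ℕ) : ℤ)) (n := ((B * y ^ 2 : ℕ) : ℤ))
      (w := ((x * y * z * s : ℕ) : ℤ)) ?_ ?_ ?_
    · positivity
    · have : 0 < x * y * z * s := by positivity
      exact_mod_cast this.ne'
    · have e1 : ((A * x ^ 2 : ℕ) : ℤ) - ((B * y ^ 2 : ℕ) : ℤ) = (C : ℤ) * (z : ℤ) ^ 2 := by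
        have : ((A * x ^ 2 : ℕ) : ℤ) = ((B * y ^ 2 + C * z ^ 2 : ℕ) : ℤ) := by rw [he]
        rw [this]; push_cast; ring
      have e2 : (C : ℤ) * (((A * x ^ 2 : ℕ) : ℤ) + ((B * y ^ 2 : ℕ) : ℤ))
          = (s : ℤ) ^ 2 * n := by
        have : ((s ^ 2 * n : ℕ) : ℤ) = ((C * w : ℕ) : ℤ) := by rw [hns]
        rw [hw] at this
        push_cast at this ⊢
        linarith
      have e3 : ((A * x ^ 2 : ℕ) : ℤ) * ((B * y ^ 2 : ℕ) : ℤ) *
          (((A * x ^ 2 : ℕ) : ℤ) ^ 2 - ((B * y ^ 2 : ℕ) : ℤ) ^ 2)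
          = ((A * x ^ 2 : ℕ) : ℤ) * ((B * y ^ 2 : ℕ) : ℤ) * (z : ℤ) ^ 2 *
            ((C : ℤ) * (((A * x ^ 2 : ℕ) : ℤ) + ((B * y ^ 2 : ℕ) : ℤ))) := by
        have : (((A * x ^ 2 : ℕ) : ℤ) ^ 2 - ((B * y ^ 2 : ℕ) : ℤ) ^ 2)
          = (((A * x ^ 2 : ℕ) : ℤ) - ((B * y ^ 2 : ℕ) : ℤ)) *
            (((A * x ^ 2 : ℕ) : ℤ) + ((B * y ^ 2 : ℕ) : ℤ)) := by ring
        rw [this, e1]; ring
      rw [e3, e2]
      push_cast
      ring

end Pool.Agent.Work.MP_8efaaa_nt.O
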