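import Pool.Agent.Work.MP_8efaaa_nt.O.Defs
import Pool.Agent.Work.MP_8efaaa_nt.G.Number

set_option autoImplicit false

/-!
# O/Prim (M): the primitive solution with `y` even

As in `G.exists_prim_solution` (`G/Number.lean`): `X ≠ 0`; `Y ≠ 0` since otherwise `(A C) Z ^ 2 = (A X) ^ 2` and `A C = 1`
(`G.squarefree_mul_sq`); `Z ≠ 0` since otherwise `(A B) Y ^ 2 = (A X) ^ 2` and `A B = 1`.  Pass to absolute values and divide by
`g = gcd`: `|X| = g x`, `|Y| = g y`, `|Z| = g z`, `(x, y, z)` primitive.  Bounds: `y ^ 2 ≤ Y ^ 2 ≤ 2 ^ (2 k - 1) A C ≤ 4 ^ k A C`.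
`y` IS EVEN: suppose `y` odd.  `2 ^ k ∣ g y` so `2 ^ k ∣ g`.  `ρ` is odd because `4 ∣ A ρ ^ 2 - C` and `C` is odd.
From `A x ^ 2 = B y ^ 2 + C z ^ 2` (`A, B, C` odd, `y` odd) exactly one of `x`, `z` is odd.  `X = ± g x`, `Z = ± g z`, so
`X - ρ Z = g * (± x ∓ ρ z)` with an odd second factor, hence `2 ^ (2 k - 1) ∣ g`: `Dv k X Y Z`, a contradiction.
-/

namespace Pool.Agent.Work.MP_8efaaa_nt.O

theorem exists_prim {A B C k : ℕ} {α β γ ρ : ℤ} (h : Dat A B C k α β γ ρ) (hAC : A * C ≠ 1)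
    (hAB : A * B ≠ 1) {X Y Z : ℤ} (s : Sol A B C k X Y Z) (hy : (2 ^ k : ℤ) ∣ Y)
    (hx : (2 ^ (2 * k - 1) : ℤ) ∣ X - ρ * Z) (hd : ¬ Dv k X Y Z) :
    ∃ x y z : ℕ, 0 < x ∧ 0 < y ∧ 0 < z ∧ A * x ^ 2 = B * y ^ 2 + C * z ^ 2 ∧
      x ^ 2 ≤ 4 ^ k * B * C ∧ y ^ 2 ≤ 4 ^ k * A * C ∧ y % 2 = 0 ∧
      (∀ p : ℕ, p.Prime → p ∣ x → p ∣ y → ¬ p ∣ z) := by
  have hA := h.hA
  have hB := h.hB
  have hC := h.hC
  have oA := h.oA
  have oB := h.oB
  have oC := h.oC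
  have hk := h.hk
  obtain ⟨hne, he, hX, hY, hZ⟩ := s
  -- naturals
  have heN : A * X.natAbs ^ 2 = B * Y.natAbs ^ 2 + C * Z.natAbs ^ 2 := by
    have : (A : ℤ) * (X.natAbs : ℤ) ^ 2 = B * (Y.natAbs : ℤ) ^ 2 + C * (Z.natAbs : ℤ) ^ 2 := by
      rw [Int.natAbs_sq, Int.natAbs_sq, Int.natAbs_sq]; exact he
    exact_mod_cast this
  have hXN : X.natAbs ^ 2 ≤ 4 ^ k * B * C := by
    have : (X.natAbs : ℤ) ^ 2 ≤ 4 ^ k * B * C := by rw [Int.natAbs_sq]; exact hX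
    exact_mod_cast this
  have hYN : Y.natAbs ^ 2 ≤ 4 ^ k * A * C := by
    have h1 : (Y.natAbs : ℤ) ^ 2 ≤ 2 ^ (2 * k - 1) * A * C := by rw [Int.natAbs_sq]; exact hY
    have h2 : Y.natAbs ^ 2 ≤ 2 ^ (2 * k - 1) * A * C := by exact_mod_cast h1
    refine h2.trans ?_
    have h3 : 2 ^ (2 * k - 1) ≤ 4 ^ k := by
      rw [show 4 = 2 ^ 2 by norm_num, ← pow_mul]
      exact Nat.pow_le_pow_right (by norm_num) (by omega)
    gcongr
  set x := X.natAbs with hxa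
  set y := Y.natAbs with hy'
  set z := Z.natAbs with hz
  have hx0 : x ≠ 0 := by
    intro h0
    rw [h0] at heN
    have e1 : B * y ^ 2 = 0 := by
      have : A * 0 ^ 2 = 0 := by ring
      omega
    have e2 : C * z ^ 2 = 0 := by
      have : A * 0 ^ 2 = 0 := by ring
      omega
    have hy0 : y = 0 := by
      by_contra hyn
      have : 0 < B * y ^ 2 := by positivity
      omega
    have hz0 : z = 0 := by
      by_contra hzn
      have : 0 < C * z ^ 2 := by positivity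
      omega
    apply hne
    rw [Int.natAbs_eq_zero.mp h0, Int.natAbs_eq_zero.mp hy0, Int.natAbs_eq_zero.mp hz0]
  have hy0 : y ≠ 0 := by
    intro h0
    rw [h0] at heN
    have e1 : (A * C) * z ^ 2 = (A * x) ^ 2 := by
      have : A * (A * x ^ 2) = A * (C * z ^ 2) := by rw [heN]; ring
      calc (A * C) * z ^ 2 = A * (C * z ^ 2) := by ring
        _ = A * (A * x ^ 2) := this.symm
        _ = (A * x) ^ 2 := by ring
    have hz0 : z ≠ 0 := by
      intro hz0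
      rw [hz0] at e1
      have : 0 < (A * x) ^ 2 := by positivity
      have : (A * C) * 0 ^ 2 = 0 := by ring
      omega
    exact hAC (G.squarefree_mul_sq ((Nat.squarefree_mul h.cAC).mpr ⟨h.sA, h.sC⟩) hz0 e1)
  have hz0 : z ≠ 0 := by
    intro h0
    rw [h0] at heN
    have e1 : (A * B) * y ^ 2 = (A * x) ^ 2 := by
      calc (A * B) * y ^ 2 = A * (B * y ^ 2 + C * 0 ^ 2) := by ring
        _ = A * (A * x ^ 2) := by rw [heN]
        _ = (A * x) ^ 2 := by ring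
    exact hAB (G.squarefree_mul_sq ((Nat.squarefree_mul h.cAB).mpr ⟨h.sA, h.sB⟩) hy0 e1)
  -- make primitive
  set g := Nat.gcd x (Nat.gcd y z) with hg
  have hg0 : 0 < g := Nat.gcd_pos_of_pos_left _ (Nat.pos_of_ne_zero hx0)
  obtain ⟨x', hx'⟩ : g ∣ x := Nat.gcd_dvd_left _ _
  obtain ⟨y', hy''⟩ : g ∣ y := (Nat.gcd_dvd_right _ _).trans (Nat.gcd_dvd_left _ _)
  obtain ⟨z', hz'⟩ : g ∣ z := (Nat.gcd_dvd_right _ _).trans (Nat.gcd_dvd_right _ _)
  have hprim : ∀ p : ℕ, p.Prime → p ∣ x' → p ∣ y' → ¬ p ∣ z' := by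
    intro p hp hpx hpy hpz
    have h3 : g * p ∣ g := by
      nth_rw 2 [hg]
      apply Nat.dvd_gcd
      · rw [hx']; exact mul_dvd_mul_left _ hpx
      · apply Nat.dvd_gcd
        · rw [hy'']; exact mul_dvd_mul_left _ hpy
        · rw [hz']; exact mul_dvd_mul_left _ hpz
    have h4 := Nat.le_of_dvd hg0 h3
    have := hp.two_le
    nlinarith
  have heq : A * x' ^ 2 = B * y' ^ 2 + C * z' ^ 2 := by
    have : g ^ 2 * (A * x' ^ 2) = g ^ 2 * (B * y' ^ 2 + C * z' ^ 2) := by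
      calc g ^ 2 * (A * x' ^ 2) = A * (g * x') ^ 2 := by ring
        _ = A * x ^ 2 := by rw [← hx']
        _ = B * y ^ 2 + C * z ^ 2 := heN
        _ = B * (g * y') ^ 2 + C * (g * z') ^ 2 := by rw [← hy'', ← hz']
        _ = g ^ 2 * (B * y' ^ 2 + C * z' ^ 2) := by ring
    exact Nat.eq_of_mul_eq_mul_left (by positivity) this
  have hyev : y' % 2 = 0 := by
    by_contra hcon
    have hyo : y' % 2 = 1 := by omega
    have hcop : Nat.Coprime (2 ^ k) y' :=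
      Nat.Coprime.pow_left k (Nat.coprime_two_left.mpr (Nat.odd_iff.mpr hyo))
    have h1 : 2 ^ k ∣ g := by
      have h2 : 2 ^ k ∣ y := by
        have := Int.natAbs_dvd_natAbs.mpr hy
        rwa [Int.natAbs_pow] at this
      rw [hy''] at h2
      exact hcop.dvd_of_dvd_mul_right h2
    -- ρ is odd
    have hρ : ρ % 2 = 1 := by
      have h4 : (4 : ℤ) ∣ A * ρ ^ 2 - C := (dvd_pow_self 4 (by omega)).trans h.r2
      by_contra hcon2
      obtain ⟨r, hr⟩ : (2 : ℤ) ∣ ρ := by omega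
      have h5 : (2 : ℤ) ∣ A * ρ ^ 2 := by rw [hr]; exact ⟨A * (2 * r ^ 2), by ring⟩
      have h6 : (2 : ℤ) ∣ C := by
        have h7 : (2 : ℤ) ∣ A * ρ ^ 2 - C := (by norm_num : (2 : ℤ) ∣ 4).trans h4
        have := dvd_sub h5 h7
        simpa using this
      omega
    -- parity of x' and z'
    have hpar : (x' + z') % 2 = 1 := by
      have h3 : (A * x' ^ 2) % 2 = (B * y' ^ 2 + C * z' ^ 2) % 2 := by rw [heq]
      have a1 : (A * x' ^ 2) % 2 = x' % 2 := by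
        rcases Nat.mod_two_eq_zero_or_one x' with e | e <;> simp [Nat.mul_mod, Nat.pow_mod, oA, e]
      have a2 : (B * y' ^ 2) % 2 = 1 := by simp [Nat.mul_mod, Nat.pow_mod, oB, hyo]
      have a3 : (C * z' ^ 2) % 2 = z' % 2 := by
        rcases Nat.mod_two_eq_zero_or_one z' with e | e <;> simp [Nat.mul_mod, Nat.pow_mod, oC, e]
      omega
    -- signs
    obtain ⟨e, he1, hXe⟩ : ∃ e : ℤ, (e = 1 ∨ e = -1) ∧ X = e * (g * x') := by
      rcases Int.natAbs_eq X with h2 | h2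
      · exact ⟨1, Or.inl rfl, by rw [one_mul, h2, ← hxa, hx']; push_cast; ring⟩
      · exact ⟨-1, Or.inr rfl, by rw [h2, ← hxa, hx']; push_cast; ring⟩
    obtain ⟨f, hf1, hZf⟩ : ∃ f : ℤ, (f = 1 ∨ f = -1) ∧ Z = f * (g * z') := by
      rcases Int.natAbs_eq Z with h2 | h2
      · exact ⟨1, Or.inl rfl, by rw [one_mul, h2, ← hz, hz']; push_cast; ring⟩
      · exact ⟨-1, Or.inr rfl, by rw [h2, ← hz, hz']; push_cast; ring⟩
    have h2 : X - ρ * Z = g * (e * x' - ρ * (f * z')) := by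
      rw [hXe, hZf]; ring
    have hodd : (e * x' - ρ * (f * z')) % 2 = 1 := by
      have hp2 : ((x' : ℤ) + z') % 2 = 1 := by exact_mod_cast hpar
      obtain ⟨r, hr⟩ : ∃ r, ρ = 2 * r + 1 := ⟨ρ / 2, by omega⟩
      have : e * (x' : ℤ) - ρ * (f * z') = e * x' - f * z' - 2 * (r * (f * z')) := by rw [hr]; ring
      rw [this]
      rcases he1 with rfl | rfl <;> rcases hf1 with rfl | rfl <;> omega
    have hcop2 : IsCoprime ((2 : ℤ) ^ (2 * k - 1)) (e * x' - ρ * (f * z')) := by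
      apply IsCoprime.pow_left
      refine ⟨-((e * x' - ρ * (f * z')) / 2), 1, ?_⟩
      omega
    have h3 : (2 : ℤ) ^ (2 * k - 1) ∣ g := by
      have h4 := hx
      rw [h2] at h4
      exact hcop2.dvd_of_dvd_mul_right h4
    apply hd
    refine ⟨?_, ?_, ?_⟩
    · rw [hXe]; exact Dvd.dvd.mul_left (Dvd.dvd.mul_right h3 _) _
    · have h5 : ((2 : ℤ) ^ (2 * k - 1)) ∣ (y : ℤ) := by
        rw [hy'']; push_cast; exact Dvd.dvd.mul_right h3 _
      rw [hy'] at h5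
      exact Int.dvd_natAbs.mp h5
    · rw [hZf]; exact Dvd.dvd.mul_left (Dvd.dvd.mul_right h3 _) _
  refine ⟨x', y', z', ?_, ?_, ?_, heq, ?_, ?_, hyev, hprim⟩
  · apply Nat.pos_of_ne_zero; rintro rfl; exact hx0 (by rw [hx']; ring)
  · apply Nat.pos_of_ne_zero; rintro rfl; exact hy0 (by rw [hy'']; ring)
  · apply Nat.pos_of_ne_zero; rintro rfl; exact hz0 (by rw [hz']; ring)
  · refine le_trans ?_ hXN
    apply Nat.pow_le_pow_left
    rw [hx']; exact Nat.le_mul_of_pos_left _ hg0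
  · refine le_trans ?_ hYN
    apply Nat.pow_le_pow_left
    rw [hy'']; exact Nat.le_mul_of_pos_left _ hg0

end Pool.Agent.Work.MP_8efaaa_nt.O
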