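import Pool.Agent.Work.MP_8efaaa_nt.G.Main

set_option autoImplicit false

/-!
# O/Prog (M): auxiliary primes and the auxiliary multiplier `m0`

`many_primes`: induction on `r` with `G.exists_prime_avoid` applied to `P ∪ Q` (`Q` the primes already found, `|Q| = i < r`), which gives
a prime `l ≤ 3 + 4 * 3 ^ (|P| + i) ≤ 7 * 3 ^ (|P| + r)`.
`exists_mult`: as in the proof of `G.main_nat` (`G/Main.lean`): Chinese remainder for `8` and `L' = ∏ Q` (pairwise different odd primes,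
`Nat.Coprime 8 L'`): `c0 = e a (mod 8)`, `c0 = a (mod L')`, `c0 < 8 L'`; `G.exists_coprime_term` for the primes of `a` and the modulus `8 L'`
(coprime to them) gives `m = c0 + 8 L' j`, `j < 3 ^ ω(a)`, `m` coprime to `a`, `m ≤ 16 L' 3 ^ ω(a)`, `m > 0` (odd).
`m0` = squarefree part of `m`, `m = s ^ 2 m0`, `s` odd, so `m0 = m = e a (mod 8)`.  For `l ∈ Q`: `m = a (mod l)` is not divisible by `l`
(`l` does not divide `a`), `a * m0` is a square modulo `l` (`a m0 = (a / s) ^ 2`, see `G.isSquare_two_mul`).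
-/

namespace Pool.Agent.Work.MP_8efaaa_nt.O

open Finset

theorem many_primes (P : Finset ℕ) (hP : ∀ p ∈ P, p.Prime) (hP2 : ∀ p ∈ P, p ≠ 2) (r : ℕ) :
    ∃ Q : Finset ℕ, Q.card = r ∧
      ∀ l ∈ Q, l.Prime ∧ l ≠ 2 ∧ l ∉ P ∧ l ≤ 7 * 3 ^ (P.card + r) := by
  classical
  induction r with
  | zero => exact ⟨∅, rfl, by simp⟩
  | succ r ih =>
    obtain ⟨Q, hQc, hQ⟩ := ih
    obtain ⟨l, hl, l2, lP, lb⟩ := G.exists_prime_avoid (P ∪ Q)
      (fun p hp => by
        rcases Finset.mem_union.mp hp with h | h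
        · exact hP p h
        · exact (hQ p h).1)
      (fun p hp => by
        rcases Finset.mem_union.mp hp with h | h
        · exact hP2 p h
        · exact (hQ p h).2.1)
    have hmono : 3 ^ (P.card + r) ≤ 3 ^ (P.card + (r + 1)) :=
      Nat.pow_le_pow_right (by norm_num) (by omega)
    refine ⟨insert l Q, ?_, ?_⟩
    · rw [Finset.card_insert_of_notMem (fun h => lP (Finset.mem_union_right _ h)), hQc]
    · intro x hx
      rcases Finset.mem_insert.mp hx with rfl | h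
      · refine ⟨hl, l2, fun h => lP (Finset.mem_union_left _ h), ?_⟩
        have h1 : 3 ^ (P ∪ Q).card ≤ 3 ^ (P.card + r) := by
          apply Nat.pow_le_pow_right (by norm_num)
          have := Finset.card_union_le P Q
          omega
        have h2 : 1 ≤ 3 ^ (P.card + r) := Nat.one_le_pow _ _ (by norm_num)
        omega
      · obtain ⟨g1, g2, g3, g4⟩ := hQ x h
        exact ⟨g1, g2, g3, by omega⟩

theorem exists_mult (a e : ℕ) (ha : Squarefree a) (hao : a % 2 = 1) (he : e % 2 = 1)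
    (Q : Finset ℕ) (hQ : ∀ l ∈ Q, l.Prime ∧ l ≠ 2 ∧ ¬ l ∣ a) :
    ∃ m0 : ℕ, 0 < m0 ∧ Squarefree m0 ∧ Nat.Coprime a m0 ∧ m0 % 2 = 1 ∧
      (a * m0) % 8 = e % 8 ∧ m0 ≤ 16 * (∏ l ∈ Q, l) * 3 ^ a.primeFactors.card ∧
      ∀ l ∈ Q, ¬ l ∣ a * m0 ∧ IsSquare (((a * m0 : ℕ) : ℤ) : ZMod l) := by
  classical
  have ha0 : 0 < a := Nat.pos_of_ne_zero ha.ne_zero
  set P0 := a.primeFactors with hP0
  have hP0p : ∀ p ∈ P0, p.Prime := fun p hp => Nat.prime_of_mem_primeFactors hp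
  have hP02 : ∀ p ∈ P0, p ≠ 2 := by
    rintro p hp rfl
    have := Nat.dvd_of_mem_primeFactors hp
    omega
  set L := ∏ l ∈ Q, l with hL
  have hLpos : 0 < L := Finset.prod_pos (fun l hl => (hQ l hl).1.pos)
  have h8L : Nat.Coprime 8 L := by
    rw [hL]
    apply Nat.Coprime.prod_right
    intro l hl
    have : Nat.Coprime (2 ^ 3) l := Nat.Coprime.pow_left 3
      ((Nat.coprime_primes Nat.prime_two (hQ l hl).1).mpr (Ne.symm (hQ l hl).2.1))
    simpa using this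
  obtain ⟨c0, hc0⟩ : ∃ c0, c0 = Nat.chineseRemainder h8L (e * a) a := ⟨_, rfl⟩
  have hc8 : (c0 : ℕ) ≡ e * a [MOD 8] := c0.2.1
  have hcL : (c0 : ℕ) ≡ a [MOD L] := c0.2.2
  have hclt : (c0 : ℕ) < 8 * L := by
    rw [hc0]; exact Nat.chineseRemainder_lt_mul h8L _ _ (by norm_num) hLpos.ne'
  have hq : ∀ p ∈ P0, ¬ p ∣ 8 * L := by
    intro p hp hd
    have pp := hP0p p hp
    rcases pp.dvd_mul.mp hd with h | h
    · have h1 : p ∣ 2 ^ 3 := by simpa using h
      have := pp.dvd_of_dvd_pow h1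
      exact hP02 p hp ((Nat.prime_dvd_prime_iff_eq pp Nat.prime_two).mp this)
    · obtain ⟨q, hq, hpq⟩ := (Prime.dvd_finsetProd_iff pp.prime _).mp h
      have := (Nat.prime_dvd_prime_iff_eq pp (hQ q hq).1).mp hpq
      subst this
      exact (hQ p hq).2.2 (Nat.dvd_of_mem_primeFactors hp)
  obtain ⟨j, hj, hjp⟩ := G.exists_coprime_term P0 hP0p hP02 (8 * L) (c0 : ℕ) hq
  set m := (c0 : ℕ) + 8 * L * j with hm
  have hm8 : m ≡ e * a [MOD 8] := by
    have h1 : m ≡ (c0 : ℕ) [MOD 8] := by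
      rw [hm]
      have : 8 * L * j = 8 * (L * j) := by ring
      rw [this]
      exact (Nat.modEq_iff_dvd' (by omega)).mpr ⟨L * j, by omega⟩ |>.symm
    exact h1.trans hc8
  have hmL : m ≡ a [MOD L] := by
    have h1 : m ≡ (c0 : ℕ) [MOD L] := by
      rw [hm]
      have : 8 * L * j = L * (8 * j) := by ring
      rw [this]
      exact (Nat.modEq_iff_dvd' (by omega)).mpr ⟨8 * j, by omega⟩ |>.symm
    exact h1.trans hcL
  have hmo : m % 2 = 1 := by
    have h1 : m ≡ e * a [MOD 2] := hm8.of_dvd (by norm_num)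
    have h2 : (e * a) % 2 = 1 := by rw [Nat.mul_mod, he, hao]
    unfold Nat.ModEq at h1
    omega
  have hmpos : 0 < m := by omega
  obtain ⟨m0, s, hsm, hm0s⟩ := Nat.sq_mul_squarefree m
  have hm0m : m0 ∣ m := ⟨s ^ 2, by rw [← hsm]; ring⟩
  have hm0le : m0 ≤ m := Nat.le_of_dvd hmpos hm0m
  have hm0pos : 0 < m0 := Nat.pos_of_ne_zero hm0s.ne_zero
  have hcop : Nat.Coprime a m0 := by
    apply Nat.coprime_of_dvd
    intro p hp hpa hpm
    exact hjp p (Nat.mem_primeFactors.mpr ⟨hp, hpa, ha0.ne'⟩) (hpm.trans hm0m)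
  have hso : s % 2 = 1 := by
    by_contra hcon
    obtain ⟨s1, rfl⟩ : 2 ∣ s := by omega
    have : (2 * s1) ^ 2 * m0 = 2 * (2 * s1 ^ 2 * m0) := by ring
    omega
  have hm08 : m0 ≡ e * a [MOD 8] := by
    have h3 := G.odd_sq_mod8 hso
    have h4 : (s ^ 2 * m0) % 8 = m0 % 8 := by rw [Nat.mul_mod, h3]; omega
    rw [hsm] at h4
    have : m0 ≡ m [MOD 8] := h4.symm
    exact this.trans hm8
  have hm0o : m0 % 2 = 1 := by
    by_contra hcon
    have : 2 ∣ m := (show 2 ∣ m0 by omega).trans hm0m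
    omega
  refine ⟨m0, hm0pos, hm0s, hcop, hm0o, ?_, ?_, ?_⟩
  · have g2 : a * m0 ≡ a * (e * a) [MOD 8] := Nat.ModEq.mul_left a hm08
    have g3 : a * (e * a) = a ^ 2 * e := by ring
    have g4 : a ^ 2 * e ≡ 1 * e [MOD 8] := by
      apply Nat.ModEq.mul_right
      exact G.odd_sq_mod8 hao
    rw [g3] at g2
    have := g2.trans g4
    rwa [one_mul] at this
  · refine hm0le.trans ?_
    have hK1 : 1 ≤ 3 ^ P0.card := Nat.one_le_pow _ _ (by norm_num)
    have h1 : 8 * L * j ≤ 8 * L * 3 ^ P0.card := Nat.mul_le_mul_left _ hj.le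
    have h2 : 8 * L ≤ 8 * L * 3 ^ P0.card := Nat.le_mul_of_pos_right _ hK1
    have h3 : 16 * L * 3 ^ P0.card = 8 * L * 3 ^ P0.card + 8 * L * 3 ^ P0.card := by ring
    omega
  · intro l hl
    obtain ⟨hlp, hl2, hla⟩ := hQ l hl
    haveI : Fact l.Prime := ⟨hlp⟩
    have hlL : l ∣ L := Finset.dvd_prod_of_mem _ hl
    have h1 : m ≡ a [MOD l] := hmL.of_dvd hlL
    have hlm : ¬ l ∣ m := fun h => hla ((h1.dvd_iff dvd_rfl).mp h)
    refine ⟨?_, ?_⟩
    · intro h
      rcases hlp.dvd_mul.mp h with h2 | h2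
      · exact hla h2
      · exact hlm (h2.trans hm0m)
    · have hs : ((s : ℕ) : ZMod l) ≠ 0 := by
        intro h
        have h3 : l ∣ s := (ZMod.natCast_eq_zero_iff s l).mp h
        exact hlm (by rw [← hsm]; exact Dvd.dvd.mul_right (dvd_pow h3 (by norm_num)) _)
      refine ⟨((a : ℕ) : ZMod l) * ((s : ℕ) : ZMod l)⁻¹, ?_⟩
      have h2 : ((s : ℕ) : ZMod l) ^ 2 * ((m0 : ℕ) : ZMod l) = ((a : ℕ) : ZMod l) := by
        rw [← (ZMod.natCast_eq_natCast_iff _ _ _).mpr h1, ← hsm]; push_cast; ring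
      have h3 : (((a * m0 : ℕ) : ℤ) : ZMod l) = ((a : ℕ) : ZMod l) * ((m0 : ℕ) : ZMod l) := by
        push_cast; ring
      rw [h3]
      have h4 : ((m0 : ℕ) : ZMod l) = ((a : ℕ) : ZMod l) * (((s : ℕ) : ZMod l)⁻¹) ^ 2 := by
        rw [← h2]; field_simp
      rw [h4]; ring

end Pool.Agent.Work.MP_8efaaa_nt.O
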