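import Mathlib

set_option autoImplicit false

/-!
# O/Rho (S): a 2-adic square root

`sq_mod`: `u = 1 (mod 8)`; by induction on `n ≥ 3` there is `s` with `2 ^ n ∣ s ^ 2 - u`, `s` odd (`s = 1` for `n = 3`; if
`s ^ 2 - u = 2 ^ n t` with `t` odd replace `s` by `s + 2 ^ (n - 1)`).
`rho`: `u = A * C`, `n = 2 k + 3`, `A' A = 1 (mod 2 ^ n)` (`A` odd), `ρ = A' s`: `A ρ ^ 2 - C = A' (A A') ... = 0 (mod 2 ^ n)`, `4 ^ k ∣ 2 ^ n`.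
-/

namespace Pool.Agent.Work.MP_8efaaa_nt.O

private theorem sq_mod (u : ℤ) (hu : (8 : ℤ) ∣ 1 - u) (n : ℕ) (hn : 3 ≤ n) :
    ∃ s t : ℤ, s % 2 = 1 ∧ s ^ 2 - u = 2 ^ n * t := by
  induction n, hn using Nat.le_induction with
  | base =>
    obtain ⟨t, ht⟩ := hu
    exact ⟨1, t, by norm_num, by linarith⟩
  | succ n hn ih =>
    obtain ⟨s, t, hs, ht⟩ := ih
    rcases Int.even_or_odd t with he | ho
    · obtain ⟨w, hw⟩ := he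
      exact ⟨s, w, hs, by rw [ht, hw, pow_succ]; ring⟩
    · obtain ⟨w, hw⟩ := ho
      obtain ⟨k, rfl⟩ : ∃ k, n = k + 3 := ⟨n - 3, by omega⟩
      obtain ⟨r, hr⟩ : ∃ r, s = 2 * r + 1 := ⟨s / 2, by omega⟩
      refine ⟨s + 2 ^ (k + 2), w + r + 1 + 2 ^ k, ?_, ?_⟩
      · have h1 : (2 : ℤ) ^ (k + 2) = 2 * (2 * 2 ^ k) := by ring
        omega
      · have h2 : (s + 2 ^ (k + 2)) ^ 2 - u = (s ^ 2 - u) + 2 * s * 2 ^ (k + 2) + (2 ^ (k + 2)) ^ 2 := by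
          ring
        rw [h2, ht, hw, hr]
        ring

theorem rho (A C k : ℕ) (oA : A % 2 = 1) (h8 : (A * C) % 8 = 1) :
    ∃ ρ : ℤ, (4 ^ k : ℤ) ∣ A * ρ ^ 2 - C := by
  obtain ⟨s, t, hs, ht⟩ := sq_mod ((A * C : ℕ) : ℤ) (by omega) (2 * k + 3) (by omega)
  have hco : IsCoprime (A : ℤ) ((2 : ℤ) ^ (2 * k + 3)) := by
    apply IsCoprime.pow_right
    refine ⟨1, -((A / 2 : ℕ) : ℤ), ?_⟩
    omega
  obtain ⟨a, b, hab⟩ := hco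
  refine ⟨a * s, ?_⟩
  have h4 : (4 : ℤ) ^ k ∣ 2 ^ (2 * k + 3) := by
    rw [pow_add, pow_mul]
    norm_num
  refine h4.trans ⟨-b * C + a * t - a * b * s ^ 2, ?_⟩
  push_cast at ht
  linear_combination (a * s ^ 2 + C) * hab + a * ht

end Pool.Agent.Work.MP_8efaaa_nt.O
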