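import Pool.Agent.Work.MP_8efaaa_nt.G.Sub

set_option autoImplicit false

/-!
# O/Sub (M): the conic with small primes in `A` and `C`

Copy of `G/Sub.lean` (`exists_set`, `exists_conic`; reuse `G.exists_sq_mod`, `G.prod_symm`, `G.usgn`, `G.u8`, `G.prod_jacobi`,
`G.isSquare_of_jacobi` ... ) with two changes: the factor 2 is dropped, i.e. the symbol is
`hs N p q = if q = p then jacobiSym (-((N / p : ℕ) : ℤ)) p else jacobiSym (q : ℤ) p`,
and the set `T` is taken inside `Ps ∪ 𝓛`, `Ps` the set of the primes `p ∣ N` with `p ≤ L`.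
PIGEONHOLE: the subsets of `Ps ∪ 𝓛` (disjoint) are `2 ^ (|Ps| + |𝓛|)` many, the group `({p // p ∈ N.primeFactors} → ℤˣ) × (ZMod 8)ˣ` has
`2 ^ (|Ps| + |Pl|) * 4` elements, `Pl` the primes `p ∣ N`, `p > L`, and `|Pl| + 3 ≤ |𝓛|`.
So there is a nonempty `T ⊆ Ps ∪ 𝓛` with trivial product.  `A = ∏ (T ∩ primes of N)`, `C = ∏ (T \ primes of N)`, `B = N / A`.
For `p ∣ A`: `jacobiSym (- B C) p = 1`; for `p ∣ B`: `jacobiSym (A C) p = 1`; for `p ∣ C`: `A B = N` is a square by hypothesis.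
-/

namespace Pool.Agent.Work.MP_8efaaa_nt.O

open Finset

/-- the local symbol at `p` of the prime `q`, for the modulus `N` -/
private def hs (N p q : ℕ) : ℤ :=
  if q = p then jacobiSym (-((N / p : ℕ) : ℤ)) p else jacobiSym (q : ℤ) p

private noncomputable def gvO (N q : ℕ) : G.GG N := (fun p => G.usgn (hs N p.1 q), G.u8 q)

/-- The pigeonhole. -/
private theorem exists_setO (N L : ℕ) (Q : Finset ℕ) (hQ : ∀ l ∈ Q, ¬ l ∣ N)
    (hcard : (N.primeFactors.filter (fun p => L < p)).card + 3 ≤ Q.card) :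
    ∃ T : Finset ℕ, T ⊆ N.primeFactors.filter (fun p => ¬ L < p) ∪ Q ∧ T.Nonempty ∧
      ∏ q ∈ T, gvO N q = 1 := by
  classical
  set Ps := N.primeFactors.filter (fun p => ¬ L < p) with hPs
  set Pl := N.primeFactors.filter (fun p => L < p) with hPl
  set P : Finset ℕ := Ps ∪ Q with hP
  have hsum : Pl.card + Ps.card = N.primeFactors.card := by
    rw [hPl, hPs]
    exact Finset.card_filter_add_card_filter_not _
  have hPc : P.card = Ps.card + Q.card := by
    rw [hP, Finset.card_union_of_disjoint]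
    rw [Finset.disjoint_left]
    intro x hx hxQ
    exact hQ x hxQ (Nat.dvd_of_mem_primeFactors (Finset.mem_filter.mp hx).1)
  have hG : Fintype.card (G.GG N) = 2 ^ N.primeFactors.card * 4 := by
    rw [Fintype.card_prod, Fintype.card_fun, Fintype.card_units_int, ZMod.card_units_eq_totient,
      Fintype.card_coe]
    congr 1
  have hlt : (Finset.univ : Finset (G.GG N)).card < P.powerset.card := by
    rw [Finset.card_univ, hG, Finset.card_powerset]
    have h1 : 2 ^ (N.primeFactors.card + 3) ≤ 2 ^ P.card := Nat.pow_le_pow_right (by norm_num) (by omega)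
    have h2 : 0 < 2 ^ N.primeFactors.card := by positivity
    rw [pow_add] at h1
    omega
  obtain ⟨S, hS, T, hT, hne, hST⟩ := Finset.exists_ne_map_eq_of_card_lt_of_maps_to
    (f := fun T : Finset ℕ => ∏ q ∈ T, gvO N q) hlt (fun _ _ => Finset.mem_univ _)
  rw [Finset.mem_powerset] at hS hT
  refine ⟨symmDiff S T, ?_, ?_, ?_⟩
  · intro x hx
    rw [Finset.mem_symmDiff] at hx
    rcases hx with ⟨h, _⟩ | ⟨h, _⟩
    · exact hS h
    · exact hT h
  · rw [Finset.nonempty_iff_ne_empty]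
    intro h
    apply hne
    exact symmDiff_eq_bot.mp (by simpa using h)
  · rw [G.prod_symm G.GG_sq]
    have hST' : ∏ q ∈ S, gvO N q = ∏ q ∈ T, gvO N q := hST
    rw [hST', G.GG_sq]

private theorem hs_pm {N p q : ℕ} (hN : Squarefree N) (hp : p.Prime) (hpN : p ∣ N)
    (hq : q.Prime) : hs N p q = 1 ∨ hs N p q = -1 := by
  unfold hs
  split_ifs with h
  · apply jacobiSym.eq_one_or_neg_one
    obtain ⟨m, hm⟩ := hpN
    have hcop : Nat.Coprime p m := by
      apply (Nat.Prime.coprime_iff_not_dvd hp).mpr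
      intro hd
      have : IsUnit p := hN p (by rw [hm]; exact mul_dvd_mul_left p hd)
      exact hp.one_lt.ne' (Nat.isUnit_iff.mp this)
    have hdiv : N / p = m := by rw [hm]; exact Nat.mul_div_cancel_left m hp.pos
    rw [hdiv, Int.neg_gcd, Int.gcd_natCast_natCast]
    exact hcop.symm
  · apply jacobiSym.eq_one_or_neg_one
    rw [Int.gcd_natCast_natCast]
    exact (Nat.coprime_primes hq hp).mpr h

theorem exists_conicO (N L : ℕ) (Q : Finset ℕ) (hN : Squarefree N) (hNo : N % 2 = 1)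
    (hQ : ∀ l ∈ Q, l.Prime ∧ l ≠ 2 ∧ ¬ l ∣ N ∧ l ≤ L ∧ IsSquare (((N : ℕ) : ℤ) : ZMod l))
    (hcard : (N.primeFactors.filter (fun p => L < p)).card + 3 ≤ Q.card) :
    ∃ A B C : ℕ, ∃ α β γ : ℤ, 0 < A ∧ 0 < B ∧ 0 < C ∧ A % 2 = 1 ∧ B % 2 = 1 ∧ C % 2 = 1 ∧
      Squarefree A ∧ Squarefree B ∧ Squarefree C ∧
      Nat.Coprime A B ∧ Nat.Coprime A C ∧ Nat.Coprime B C ∧ (A * C) % 8 = 1 ∧ A * C ≠ 1 ∧
      (A : ℤ) ∣ α ^ 2 + B * C ∧ (B : ℤ) ∣ β ^ 2 - A * C ∧ (C : ℤ) ∣ γ ^ 2 - A * B ∧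
      A * B = N ∧ C ∣ ∏ l ∈ Q, l ∧ (∀ p : ℕ, p.Prime → p ∣ A * C → p ≤ L) := by
  classical
  have hN0 : N ≠ 0 := hN.ne_zero
  obtain ⟨T, hTs, hTn, hT1⟩ := exists_setO N L Q (fun l hl => (hQ l hl).2.2.1) hcard
  have hTc : ∀ q ∈ T, (q ∈ N.primeFactors ∧ q ≤ L) ∨ q ∈ Q := by
    intro q hq
    rcases Finset.mem_union.mp (hTs hq) with h | h
    · rw [Finset.mem_filter] at h
      exact Or.inl ⟨h.1, not_lt.mp h.2⟩
    · exact Or.inr h
  have hTprime : ∀ q ∈ T, q.Prime := by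
    intro q hq
    rcases hTc q hq with h | h
    · exact Nat.prime_of_mem_primeFactors h.1
    · exact (hQ q h).1
  have hTL : ∀ q ∈ T, q ≤ L := by
    intro q hq
    rcases hTc q hq with h | h
    · exact h.2
    · exact (hQ q h).2.2.2.1
  have hTodd : ∀ q ∈ T, q % 2 = 1 := by
    intro q hq
    have hq2 : q ≠ 2 := by
      rcases hTc q hq with h | h
      · rintro rfl
        have := Nat.dvd_of_mem_primeFactors h.1
        omega
      · exact (hQ q h).2.1
    exact (hTprime q hq).eq_two_or_odd.resolve_left hq2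
  set TA := T ∩ N.primeFactors with hTA
  set TC := T \ N.primeFactors with hTC
  set TB := N.primeFactors \ T with hTB
  set A := ∏ q ∈ TA, q with hA
  set B := ∏ q ∈ TB, q with hB
  set C := ∏ q ∈ TC, q with hC
  have hprA : ∀ q ∈ TA, q.Prime := fun q hq => hTprime q (mem_inter.mp hq).1
  have hprB : ∀ q ∈ TB, q.Prime := fun q hq => Nat.prime_of_mem_primeFactors (mem_sdiff.mp hq).1
  have hprC : ∀ q ∈ TC, q.Prime := fun q hq => hTprime q (mem_sdiff.mp hq).1
  have hAB : A * B = N := by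
    have : ∏ q ∈ N.primeFactors, q = N := Nat.prod_primeFactors_of_squarefree hN
    rw [← this, hA, hB, hTA, hTB, Finset.inter_comm]
    exact Finset.prod_inter_mul_prod_sdiff _ _ _
  have hACT : A * C = ∏ q ∈ T, q := by
    rw [hA, hC, hTA, hTC]
    exact Finset.prod_inter_mul_prod_sdiff _ _ _
  have hcopAC : Nat.Coprime A C := by
    rw [hA, hC]
    apply Nat.Coprime.prod_left
    intro p hp
    apply Nat.Coprime.prod_right
    intro q hq
    rw [Nat.coprime_primes (hprA p hp) (hprC q hq)]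
    rintro rfl
    exact (mem_sdiff.mp hq).2 (mem_inter.mp hp).2
  have hcopBC : Nat.Coprime B C := by
    rw [hB, hC]
    apply Nat.Coprime.prod_left
    intro p hp
    apply Nat.Coprime.prod_right
    intro q hq
    rw [Nat.coprime_primes (hprB p hp) (hprC q hq)]
    rintro rfl
    exact (mem_sdiff.mp hq).2 (mem_sdiff.mp hp).1
  have hABs := hN
  rw [← hAB] at hABs
  have hcopAB : Nat.Coprime A B := Nat.coprime_of_squarefree_mul hABs
  have sA : Squarefree A := hABs.squarefree_of_dvd (dvd_mul_right _ _)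
  have sB : Squarefree B := hABs.squarefree_of_dvd (dvd_mul_left _ _)
  have hTCsub : TC ⊆ Q := by
    intro q hq
    have h1 := (mem_sdiff.mp hq)
    rcases hTc q h1.1 with h | h
    · exact absurd h.1 h1.2
    · exact h
  have hCdvd : C ∣ ∏ l ∈ Q, l := Finset.prod_dvd_prod_of_subset _ _ _ hTCsub
  have sC : Squarefree C := by
    rw [hC]
    apply Finset.squarefree_prod_of_pairwise_isCoprime
    · intro p hp q hq hpq
      show IsRelPrime p q
      rw [← Nat.coprime_iff_isRelPrime]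
      exact (Nat.coprime_primes (hprC p hp) (hprC q hq)).mpr hpq
    · intro q hq; exact (hprC q hq).prime.squarefree
  have hApos : 0 < A := Finset.prod_pos (fun q hq => (hprA q hq).pos)
  have hBpos : 0 < B := Finset.prod_pos (fun q hq => (hprB q hq).pos)
  have hCpos : 0 < C := Finset.prod_pos (fun q hq => (hprC q hq).pos)
  have hAo : A % 2 = 1 := by
    by_contra hcon
    have : 2 ∣ N := by rw [← hAB]; exact Dvd.dvd.mul_right (by omega) _
    omega
  have hBo : B % 2 = 1 := by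
    by_contra hcon
    have : 2 ∣ N := by rw [← hAB]; exact Dvd.dvd.mul_left (by omega) _
    omega
  have hmemC : ∀ p : ℕ, p.Prime → p ∣ C → p ∈ Q := by
    intro p hp hpC
    obtain ⟨q, hq, hpq⟩ := (Prime.dvd_finsetProd_iff hp.prime _).mp hpC
    have := (Nat.prime_dvd_prime_iff_eq hp (hprC q hq)).mp hpq
    subst this
    exact hTCsub hq
  have hCo : C % 2 = 1 := by
    by_contra hcon
    exact (hQ 2 (hmemC 2 Nat.prime_two (show 2 ∣ C by omega))).2.1 rfl
  -- the class mod 8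
  have hT8 : ∏ q ∈ T, G.u8 q = 1 := by
    have := congrArg Prod.snd hT1
    rw [Prod.snd_prod] at this
    exact this
  have h8 : (A * C) % 8 = 1 := by
    have h1 : (((A * C : ℕ)) : ZMod 8) = ((1 : ℕ) : ZMod 8) := by
      rw [hACT]
      push_cast
      have h2 : ∏ q ∈ T, ((q : ℕ) : ZMod 8) = ∏ q ∈ T, ((G.u8 q : (ZMod 8)ˣ) : ZMod 8) :=
        Finset.prod_congr rfl (fun q hq => (G.u8_val (hTodd q hq)).symm)
      rw [h2, ← Units.coe_prod, hT8]
      simp
    rw [ZMod.natCast_eq_natCast_iff] at h1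
    exact h1
  have hne1 : A * C ≠ 1 := by
    rw [hACT]
    intro h
    obtain ⟨q, hq⟩ := hTn
    have h1 : q ∣ ∏ q ∈ T, q := Finset.dvd_prod_of_mem _ hq
    rw [h] at h1
    exact (hTprime q hq).one_lt.ne' (Nat.dvd_one.mp h1)
  -- the symbols
  have hsy : ∀ p ∈ N.primeFactors, ∏ q ∈ T, hs N p q = 1 := by
    intro p hp
    have h1 := congrFun (congrArg Prod.fst hT1) ⟨p, hp⟩
    rw [Prod.fst_prod, Finset.prod_apply] at h1
    have h2 : ∏ q ∈ T, G.usgn (hs N p q) = 1 := h1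
    have h3 : ∏ q ∈ T, hs N p q = ∏ q ∈ T, ((G.usgn (hs N p q) : ℤˣ) : ℤ) := by
      apply Finset.prod_congr rfl
      intro q hq
      rw [G.usgn_val]
      exact hs_pm hN (Nat.prime_of_mem_primeFactors hp) (Nat.dvd_of_mem_primeFactors hp)
        (hTprime q hq)
    rw [h3, ← Units.coe_prod, h2]
    simp
  have hsqA : ∀ p : ℕ, p.Prime → p ∣ A → IsSquare (((-(B * C) : ℤ)) : ZMod p) := by
    intro p hp hpA
    haveI : Fact p.Prime := ⟨hp⟩
    have hpN : p ∈ N.primeFactors := by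
      rw [Nat.mem_primeFactors]
      exact ⟨hp, hpA.trans (by rw [← hAB]; exact dvd_mul_right _ _), hN0⟩
    have hpT : p ∈ T := by
      rw [hA] at hpA
      obtain ⟨q, hq, hpq⟩ := (Prime.dvd_finsetProd_iff hp.prime _).mp hpA
      have := (Nat.prime_dvd_prime_iff_eq hp (hprA q hq)).mp hpq
      subst this
      exact (mem_inter.mp hq).1
    obtain ⟨A1, hA1⟩ := hpA
    have hA1p : ¬ p ∣ A1 := by
      intro hd
      have : IsUnit p := sA p (by rw [hA1]; exact mul_dvd_mul_left p hd)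
      exact hp.one_lt.ne' (Nat.isUnit_iff.mp this)
    have e1 : N / p = A1 * B := by
      rw [← hAB, hA1, mul_assoc]
      exact Nat.mul_div_cancel_left _ hp.pos
    have e2 : ∏ q ∈ T.erase p, q = A1 * C := by
      have h1 : p * ∏ q ∈ T.erase p, q = ∏ q ∈ T, q := Finset.mul_prod_erase T (fun q => q) hpT
      rw [← hACT, hA1, mul_assoc] at h1
      exact Nat.eq_of_mul_eq_mul_left hp.pos h1
    have h1 := hsy p hpN
    rw [← Finset.mul_prod_erase T (fun q => hs N p q) hpT] at h1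
    have h2 : ∏ q ∈ T.erase p, hs N p q = jacobiSym ((A1 * C : ℕ) : ℤ) p := by
      rw [← e2, ← G.prod_jacobi]
      apply Finset.prod_congr rfl
      intro q hq
      unfold hs
      rw [if_neg (Finset.ne_of_mem_erase hq)]
    have h3 : hs N p p = jacobiSym (-((A1 * B : ℕ) : ℤ)) p := by
      unfold hs
      rw [if_pos rfl, e1]
    have h4 : jacobiSym (-((A1 * B : ℕ) : ℤ) * ((A1 * C : ℕ) : ℤ)) p = 1 := by
      rw [jacobiSym.mul_left, ← h3, ← h2]
      exact h1
    obtain ⟨r, hr⟩ := G.isSquare_of_jacobi hp h4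
    have hA1z : ((A1 : ℕ) : ZMod p) ≠ 0 := by
      intro h; exact hA1p ((ZMod.natCast_eq_zero_iff A1 p).mp h)
    refine ⟨r * ((A1 : ℕ) : ZMod p)⁻¹, ?_⟩
    have h5 : r * ((A1 : ℕ) : ZMod p)⁻¹ * (r * ((A1 : ℕ) : ZMod p)⁻¹)
      = (r * r) * (((A1 : ℕ) : ZMod p)⁻¹ * ((A1 : ℕ) : ZMod p)⁻¹) := by ring
    rw [h5, ← hr]
    push_cast
    field_simp
  have hsqB : ∀ p : ℕ, p.Prime → p ∣ B → IsSquare (((A * C : ℤ)) : ZMod p) := by
    intro p hp hpB
    have hpN : p ∈ N.primeFactors := by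
      rw [Nat.mem_primeFactors]
      exact ⟨hp, hpB.trans (by rw [← hAB]; exact dvd_mul_left _ _), hN0⟩
    have hpT : p ∉ T := by
      intro hpT
      have hpA : p ∣ A := by
        rw [hA]; exact Finset.dvd_prod_of_mem _ (mem_inter.mpr ⟨hpT, hpN⟩)
      exact hp.one_lt.ne' (Nat.eq_one_of_dvd_coprimes hcopAB hpA hpB)
    have h1 := hsy p hpN
    have h2 : ∏ q ∈ T, hs N p q = jacobiSym ((A * C : ℤ)) p := by
      have h3 : ((A : ℤ) * (C : ℤ)) = ((∏ q ∈ T, q : ℕ) : ℤ) := by rw [← hACT]; push_cast; rfl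
      rw [h3, ← G.prod_jacobi]
      apply Finset.prod_congr rfl
      intro q hq
      unfold hs
      rw [if_neg (by rintro rfl; exact hpT hq)]
    rw [h2] at h1
    exact G.isSquare_of_jacobi hp h1
  have hsqC : ∀ p : ℕ, p.Prime → p ∣ C → IsSquare (((A * B : ℤ)) : ZMod p) := by
    intro p hp hpC
    have h1 : ((A * B : ℤ)) = ((N : ℕ) : ℤ) := by rw [← hAB]; push_cast; ring
    rw [h1]
    exact (hQ p (hmemC p hp hpC)).2.2.2.2
  obtain ⟨α, hα⟩ := G.exists_sq_mod A _ sA hsqA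
  obtain ⟨β, hβ⟩ := G.exists_sq_mod B _ sB hsqB
  obtain ⟨γ, hγ⟩ := G.exists_sq_mod C _ sC hsqC
  refine ⟨A, B, C, α, β, γ, hApos, hBpos, hCpos, hAo, hBo, hCo, sA, sB, sC, hcopAB, hcopAC, hcopBC,
    h8, hne1, ?_, hβ, hγ, hAB, hCdvd, ?_⟩
  · rwa [sub_neg_eq_add] at hα
  · intro p hp hpd
    rw [hACT] at hpd
    obtain ⟨q, hq, hpq⟩ := (Prime.dvd_finsetProd_iff hp.prime _).mp hpd
    have := (Nat.prime_dvd_prime_iff_eq hp (hTprime q hq)).mp hpq
    subst this
    exact hTL p hq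

end Pool.Agent.Work.MP_8efaaa_nt.O
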