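import Pool.Agent.Work.MP_8efaaa_nt.O.Chain
import Pool.Agent.Work.MP_8efaaa_nt.O.Prim
import Pool.Agent.Work.MP_8efaaa_nt.O.Number
import Pool.Agent.Work.MP_8efaaa_nt.O.Rho
import Pool.Agent.Work.MP_8efaaa_nt.O.Sub
import Pool.Agent.Work.MP_8efaaa_nt.O.Prog

set_option autoImplicit false

/-!
# O/MainNat (M): the theorem for odd `a ≠ 1`, explicit constants

`ω = ω(a)`, `Q` from `many_primes` for the primes of `a` and `r`; `∏ Q ≤ (7 * 3 ^ (ω + r)) ^ r =: Λ`; `m0` from `exists_mult`, `N = a m0`,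
`m0 ≤ 16 Λ 3 ^ ω`; `L = 16 * Λ * 3 ^ ω * H`.  Every `l ∈ Q` satisfies `l ≤ 7 * 3 ^ (ω + r) ≤ Λ ≤ L` (`r ≥ 3`).  A prime `p ∣ N` with
`p > L` divides `a` (otherwise `p ∣ m0 ≤ L`) and `p > H`; so `exists_conicO` applies to `N, L, Q`.
`k = Nat.log 4 (2 * L) + 2`: `2 L < 4 ^ (k - 1)` (`Nat.lt_pow_succ_log_self`), `4 ^ k ≤ 32 L` (`Nat.pow_log_le_self`).
`rho`, `exists_right`, `exists_prim` (`A B = N ≠ 1` because `a ≠ 1`), `number` give `n1`; `n = N * n1`: squarefree (coprime squarefree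
factors), `n = N = e (mod 8)`, `n ≤ N * (2 * 4 ^ k * N * C ^ 2) ≤ 64 L N ^ 2 Λ ^ 2` with `C ≤ ∏ Q ≤ Λ`, `N ≤ a * 16 Λ 3 ^ ω`; so
`n ≤ 64 * (16 Λ 3 ^ ω H) * (16 Λ 3 ^ ω) ^ 2 a ^ 2 Λ ^ 2 = 64 * 16 ^ 3 * Λ ^ 5 * 27 ^ ω * H * a ^ 2`.
-/

namespace Pool.Agent.Work.MP_8efaaa_nt.O

open Finset

theorem main_natO (a e r H : ℕ) (ha : Squarefree a) (hao : a % 2 = 1) (ha1 : a ≠ 1)
    (he : e % 2 = 1) (hH : 1 ≤ H)
    (hr : (a.primeFactors.filter (fun p => H < p)).card + 3 ≤ r) :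
    ∃ n : ℕ, Squarefree n ∧ a ∣ n ∧ n % 8 = e % 8 ∧
      n ≤ 64 * 16 ^ 3 * ((7 * 3 ^ (a.primeFactors.card + r)) ^ r) ^ 5 *
        27 ^ a.primeFactors.card * H * a ^ 2 ∧ IsCongruent n := by
  classical
  have ha0 : 0 < a := Nat.pos_of_ne_zero ha.ne_zero
  set w := a.primeFactors.card with hw
  have hPp : ∀ p ∈ a.primeFactors, p.Prime := fun p hp => Nat.prime_of_mem_primeFactors hp
  have hP2 : ∀ p ∈ a.primeFactors, p ≠ 2 := by
    rintro p hp rfl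
    have := Nat.dvd_of_mem_primeFactors hp
    omega
  obtain ⟨Q, hQc, hQ⟩ := many_primes a.primeFactors hPp hP2 r
  rw [← hw] at hQ
  set q := 7 * 3 ^ (w + r) with hq
  have hr3 : 3 ≤ r := by omega
  set Λ := q ^ r with hΛ
  have hprod : ∏ l ∈ Q, l ≤ Λ := by
    rw [hΛ, ← hQc]
    exact Finset.prod_le_pow_card Q _ q (fun l hl => (hQ l hl).2.2.2)
  have hqΛ : q ≤ Λ := by
    rw [hΛ]; exact Nat.le_self_pow (by omega) q
  obtain ⟨m0, m0pos, m0s, hcop, m0o, hm8, m0le, hQm⟩ := exists_mult a e ha hao he Q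
    (fun l hl => ⟨(hQ l hl).1, (hQ l hl).2.1, fun hd => (hQ l hl).2.2.1
      (Nat.mem_primeFactors.mpr ⟨(hQ l hl).1, hd, ha0.ne'⟩)⟩)
  rw [← hw] at m0le
  set M := 16 * Λ * 3 ^ w with hM
  have m0M : m0 ≤ M := m0le.trans (Nat.mul_le_mul_right _ (Nat.mul_le_mul_left _ hprod))
  have h3w : 1 ≤ 3 ^ w := Nat.one_le_pow _ _ (by norm_num)
  have hM1 : 1 ≤ M := m0pos.trans_le m0M
  set L := M * H with hL
  have hML : M ≤ L := Nat.le_mul_of_pos_right _ hH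
  have hΛM : Λ ≤ M := by
    rw [hM]
    calc Λ ≤ 16 * Λ := by omega
      _ ≤ 16 * Λ * 3 ^ w := Nat.le_mul_of_pos_right _ h3w
  have hHL : H ≤ L := Nat.le_mul_of_pos_left _ hM1
  set N := a * m0 with hN
  have hNs : Squarefree N := (Nat.squarefree_mul hcop).mpr ⟨ha, m0s⟩
  have hNo : N % 2 = 1 := by rw [hN, Nat.mul_mod, hao, m0o]
  have hcard : (N.primeFactors.filter (fun p => L < p)).card + 3 ≤ Q.card := by
    rw [hQc]
    refine le_trans (Nat.add_le_add_right (Finset.card_le_card ?_) 3) hr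
    intro p hp
    rw [mem_filter, Nat.mem_primeFactors] at hp ⊢
    obtain ⟨⟨pp, hd, h0⟩, hlt⟩ := hp
    refine ⟨⟨pp, ?_, ha0.ne'⟩, lt_of_le_of_lt hHL hlt⟩
    rcases pp.dvd_mul.mp hd with h | h
    · exact h
    · have := Nat.le_of_dvd m0pos h
      omega
  obtain ⟨A, B, C, α, β, γ, hA, hB, hC, oA, oB, oC, sA, sB, sC, cAB, cAC, cBC, h8, hne, rA, rB,
    rC, hABN, hCd, hpL⟩ := exists_conicO N L Q hNs hNo
      (fun l hl => ⟨(hQ l hl).1, (hQ l hl).2.1, (hQm l hl).1,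
        (((hQ l hl).2.2.2.trans hqΛ).trans hΛM).trans hML, (hQm l hl).2⟩) hcard
  have hCle : C ≤ Λ := by
    refine (Nat.le_of_dvd ?_ hCd).trans hprod
    exact Finset.prod_pos (fun l hl => (hQ l hl).1.pos)
  set k := Nat.log 4 (2 * L) + 2 with hk
  have hk1 : 2 * L < 4 ^ (k - 1) := by
    have h1 : k - 1 = Nat.log 4 (2 * L) + 1 := by omega
    rw [h1]
    exact Nat.lt_pow_succ_log_self (by norm_num) _
  have hk2 : 4 ^ k ≤ 32 * L := by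
    have h1 : 4 ^ Nat.log 4 (2 * L) ≤ 2 * L := Nat.pow_log_le_self 4 (by omega)
    calc 4 ^ k = 4 ^ Nat.log 4 (2 * L) * 16 := by rw [hk, pow_add]; norm_num
      _ ≤ 2 * L * 16 := Nat.mul_le_mul_right _ h1
      _ = 32 * L := by ring
  obtain ⟨ρ, r2⟩ := rho A C k oA h8
  have D : Dat A B C k α β γ ρ :=
    ⟨hA, hB, hC, oA, oB, oC, sA, sB, sC, cAB, cAC, cBC, rA, rB, rC, r2, by omega⟩
  obtain ⟨X, Y, Z, s, hy, hx, hd⟩ := exists_right D hne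
    (fun p pp hpd => lt_of_le_of_lt (Nat.mul_le_mul_left _ (hpL p pp hpd)) hk1)
  have hABne : A * B ≠ 1 := by
    rw [hABN, hN]
    intro h
    exact ha1 (Nat.eq_one_of_mul_eq_one_right h)
  obtain ⟨x, y, z, hx0, hy0, hz0, hez, hxb, hyb, hy2, hprim⟩ := exists_prim D hne hABne s hy hx hd
  obtain ⟨n1, n1s, n1c, n18, n1le, n1cong⟩ := number A B C k hA hB hC oA oB oC sA sB sC cAB cAC cBC
    h8 hx0 hy0 hz0 hez hxb hyb hy2 hprim
  rw [hABN] at n1c n1cong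
  refine ⟨N * n1, ?_, ?_, ?_, ?_, n1cong⟩
  · exact (Nat.squarefree_mul n1c).mpr ⟨hNs, n1s⟩
  · exact ⟨m0 * n1, by rw [hN]; ring⟩
  · rw [Nat.mul_mod, n18, hm8]
    omega
  · have hNM : N ≤ a * M := Nat.mul_le_mul_left _ m0M
    have e1 : n1 ≤ 2 * 4 ^ k * N * C ^ 2 := by
      calc n1 ≤ 2 * 4 ^ k * A * B * C ^ 2 := n1le
        _ = 2 * 4 ^ k * (A * B) * C ^ 2 := by ring
        _ = 2 * 4 ^ k * N * C ^ 2 := by rw [hABN]
    calc N * n1 ≤ N * (2 * 4 ^ k * N * C ^ 2) := Nat.mul_le_mul_left _ e1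
      _ = 4 ^ k * (2 * N ^ 2 * C ^ 2) := by ring
      _ ≤ 32 * L * (2 * N ^ 2 * C ^ 2) := Nat.mul_le_mul_right _ hk2
      _ ≤ 32 * L * (2 * (a * M) ^ 2 * Λ ^ 2) := by
          apply Nat.mul_le_mul_left
          apply Nat.mul_le_mul
          · exact Nat.mul_le_mul_left _ (Nat.pow_le_pow_left hNM 2)
          · exact Nat.pow_le_pow_left hCle 2
      _ = 64 * 16 ^ 3 * Λ ^ 5 * 27 ^ w * H * a ^ 2 := by
          have e27 : (27 : ℕ) ^ w = 3 ^ w * 3 ^ w * 3 ^ w := by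
            rw [← mul_pow, ← mul_pow]
            norm_num
          rw [hL, hM, e27]
          ring

end Pool.Agent.Work.MP_8efaaa_nt.O
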