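import Pool.Agent.Work.MP_8efaaa_nt.O.Defs
import Pool.Agent.Work.MP_8efaaa_nt.G.Conic

/-!
# O/Thue (M): the box principle, exact at the prime 2

Copy the proof of `G.thue_aux` and `G.thue` (file `G/Conic.lean`), with the following data.
Box: `0 ≤ X ≤ sqrt (4 ^ k * B * C)`, `0 ≤ Y ≤ sqrt (2 ^ (2 k - 1) * A * C)`, `0 ≤ Z ≤ sqrt (2 ^ (2 k - 1) * A * B)` (`Nat.sqrt`).
Classes: `ZMod A1 × ZMod A2 × ZMod B × ZMod C1 × ZMod C2 × ZMod (2 ^ k) × ZMod (2 ^ (2 k - 1))`, the map being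
`(B Y - α Z, B Y + α Z, A X - β Z, A X - γ Y, A X + γ Y, Y, X - ρ Z)`; there are `A B C 2 ^ (3 k - 1)` classes and the square of the number
of points of the box is larger than `4 ^ k B C * 2 ^ (2 k - 1) A C * 2 ^ (2 k - 1) A B = (A B C 2 ^ (3 k - 1)) ^ 2`.
Let `f = A X ^ 2 - B Y ^ 2 - C Z ^ 2` for the difference `(X, Y, Z) ≠ 0` of two points in one class.
* `A1 ∣ f`: `B * (B Y ^ 2 + C Z ^ 2) = (B Y - α Z) (B Y + α Z) + (α ^ 2 + B C) Z ^ 2` and `A1 ∣ A`, `B` is coprime to `A`; same for `A2`;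
  `A1`, `A2` are coprime since `A = A1 * A2` is squarefree.  So `A ∣ f`.
* `B ∣ f`: `A * (A X ^ 2 - C Z ^ 2) = (A X - β Z) (A X + β Z) + (β ^ 2 - A C) Z ^ 2`.
* `C1 ∣ f`, `C2 ∣ f`: `A * (A X ^ 2 - B Y ^ 2) = (A X - γ Y) (A X + γ Y) + (γ ^ 2 - A B) Y ^ 2`.
* `4 ^ k ∣ f`: `4 ^ k ∣ Y ^ 2`; `A X ^ 2 - C Z ^ 2 = A (X - ρ Z) (X + ρ Z) + (A ρ ^ 2 - C) Z ^ 2` and
  `X + ρ Z = (X - ρ Z) + 2 ρ Z` is even, `2 ^ (2 k - 1) ∣ X - ρ Z`.
So `4 ^ k A B C ∣ f` and `- 4 ^ k A B C ≤ f ≤ 4 ^ k A B C` (`B Y ^ 2 + C Z ^ 2 ≤ 2 * 2 ^ (2 k - 1) A B C`).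
`f = 4 ^ k A B C` forces `Y = Z = 0` and `X ^ 2 = 4 ^ k B C`; then `2 ^ (2 k - 1) ∣ X`, so `4 ^ (2 k - 1) ∣ 4 ^ k B C`, impossible for
`k ≥ 2` because `B C` is odd.  `f = - 4 ^ k A B C` forces `X = 0` and `Y ^ 2 = 2 ^ (2 k - 1) A C`: impossible, odd power of 2.
Hence `f = 0`.
-/

set_option autoImplicit false

namespace Pool.Agent.Work.MP_8efaaa_nt.O

open Finset

private theorem thue_auxO (A1 A2 B C1 C2 k : ℕ) (hA1 : 0 < A1) (hA2 : 0 < A2) (hB : 0 < B)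
    (hC1 : 0 < C1) (hC2 : 0 < C2) (hk : 2 ≤ k) (α β γ ρ : ℤ) :
    ∃ X Y Z : ℤ, (X, Y, Z) ≠ (0, 0, 0) ∧ X ^ 2 ≤ ((4 ^ k * B * (C1 * C2) : ℕ) : ℤ) ∧
      Y ^ 2 ≤ ((2 ^ (2 * k - 1) * (A1 * A2) * (C1 * C2) : ℕ) : ℤ) ∧
      Z ^ 2 ≤ ((2 ^ (2 * k - 1) * (A1 * A2) * B : ℕ) : ℤ) ∧
      InL A1 A2 B C1 C2 k α β γ ρ X Y Z := by
  have : NeZero A1 := ⟨hA1.ne'⟩
  have : NeZero A2 := ⟨hA2.ne'⟩
  have : NeZero B := ⟨hB.ne'⟩
  have : NeZero C1 := ⟨hC1.ne'⟩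
  have : NeZero C2 := ⟨hC2.ne'⟩
  have : NeZero (2 ^ k) := ⟨by positivity⟩
  have : NeZero (2 ^ (2 * k - 1)) := ⟨by positivity⟩
  set x0 := Nat.sqrt (4 ^ k * B * (C1 * C2)) with hx0
  set y0 := Nat.sqrt (2 ^ (2 * k - 1) * (A1 * A2) * (C1 * C2)) with hy0
  set z0 := Nat.sqrt (2 ^ (2 * k - 1) * (A1 * A2) * B) with hz0
  let F : ℕ × ℕ × ℕ →
      ZMod A1 × ZMod A2 × ZMod B × ZMod C1 × ZMod C2 × ZMod (2 ^ k) × ZMod (2 ^ (2 * k - 1)) :=
    fun t =>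
    (((B * (t.2.1 : ℤ) - α * (t.2.2 : ℤ) : ℤ) : ZMod A1),
     ((B * (t.2.1 : ℤ) + α * (t.2.2 : ℤ) : ℤ) : ZMod A2),
     ((A1 * A2 * (t.1 : ℤ) - β * (t.2.2 : ℤ) : ℤ) : ZMod B),
     ((A1 * A2 * (t.1 : ℤ) - γ * (t.2.1 : ℤ) : ℤ) : ZMod C1),
     ((A1 * A2 * (t.1 : ℤ) + γ * (t.2.1 : ℤ) : ℤ) : ZMod C2),
     (((t.2.1 : ℤ) : ℤ) : ZMod (2 ^ k)),
     (((t.1 : ℤ) - ρ * (t.2.2 : ℤ) : ℤ) : ZMod (2 ^ (2 * k - 1))))
  set S : Finset (ℕ × ℕ × ℕ) := range (x0 + 1) ×ˢ range (y0 + 1) ×ˢ range (z0 + 1) with hS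
  have hcard : (Finset.univ : Finset (ZMod A1 × ZMod A2 × ZMod B × ZMod C1 × ZMod C2 ×
      ZMod (2 ^ k) × ZMod (2 ^ (2 * k - 1)))).card < S.card := by
    rw [Finset.card_univ, Fintype.card_prod, Fintype.card_prod, Fintype.card_prod,
      Fintype.card_prod, Fintype.card_prod, Fintype.card_prod, ZMod.card, ZMod.card, ZMod.card,
      ZMod.card, ZMod.card, ZMod.card, ZMod.card, hS,
      card_product, card_product, card_range, card_range, card_range]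
    have h1 : 4 ^ k * B * (C1 * C2) < (x0 + 1) * (x0 + 1) := Nat.lt_succ_sqrt _
    have h2 : 2 ^ (2 * k - 1) * (A1 * A2) * (C1 * C2) < (y0 + 1) * (y0 + 1) := Nat.lt_succ_sqrt _
    have h3 : 2 ^ (2 * k - 1) * (A1 * A2) * B < (z0 + 1) * (z0 + 1) := Nat.lt_succ_sqrt _
    have h4 := Nat.mul_lt_mul'' h1 h2
    have h5 := Nat.mul_lt_mul'' h4 h3
    by_contra hcon
    push Not at hcon
    have h6 := Nat.mul_le_mul hcon hcon
    have e1 : (x0 + 1) * ((y0 + 1) * (z0 + 1)) * ((x0 + 1) * ((y0 + 1) * (z0 + 1)))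
      = (((x0 + 1) * (x0 + 1)) * ((y0 + 1) * (y0 + 1))) * ((z0 + 1) * (z0 + 1)) := by ring
    have e3 : 4 ^ k = 2 ^ k * 2 ^ k := by rw [← mul_pow]; norm_num
    have e2 : A1 * (A2 * (B * (C1 * (C2 * (2 ^ k * 2 ^ (2 * k - 1)))))) *
        (A1 * (A2 * (B * (C1 * (C2 * (2 ^ k * 2 ^ (2 * k - 1))))))) =
        4 ^ k * B * (C1 * C2) * (2 ^ (2 * k - 1) * (A1 * A2) * (C1 * C2)) *
          (2 ^ (2 * k - 1) * (A1 * A2) * B) := by
      rw [e3]
      ring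
    rw [e1, e2] at h6
    exact absurd (lt_of_lt_of_le h5 h6) (lt_irrefl _)
  obtain ⟨s, hs, t, ht, hne, hF⟩ := Finset.exists_ne_map_eq_of_card_lt_of_maps_to (f := F)
    hcard (fun _ _ => Finset.mem_univ _)
  obtain ⟨x1, y1, z1⟩ := s
  obtain ⟨x2, y2, z2⟩ := t
  simp only [hS, mem_product, mem_range] at hs ht
  simp only [F, Prod.mk.injEq] at hF
  obtain ⟨f1, f2, f3, f4, f5, f6, f7⟩ := hF
  rw [ZMod.intCast_eq_intCast_iff_dvd_sub] at f1 f2 f3 f4 f5 f6 f7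
  refine ⟨(x1 : ℤ) - x2, (y1 : ℤ) - y2, (z1 : ℤ) - z2, ?_, ?_, ?_, ?_,
    ⟨?_, ?_, ?_, ?_, ?_, ?_, ?_⟩⟩
  · intro h
    apply hne
    simp only [Prod.mk.injEq] at h ⊢
    omega
  · exact G.sq_abs_le (by positivity) (by positivity)
      (by exact_mod_cast (by omega : x1 ≤ x0)) (by exact_mod_cast (by omega : x2 ≤ x0))
  · exact G.sq_abs_le (by positivity) (by positivity)
      (by exact_mod_cast (by omega : y1 ≤ y0)) (by exact_mod_cast (by omega : y2 ≤ y0))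
  · exact G.sq_abs_le (by positivity) (by positivity)
      (by exact_mod_cast (by omega : z1 ≤ z0)) (by exact_mod_cast (by omega : z2 ≤ z0))
  · obtain ⟨k, hk⟩ := f1
    exact ⟨-k, by linear_combination -hk⟩
  · obtain ⟨k, hk⟩ := f2
    exact ⟨-k, by linear_combination -hk⟩
  · obtain ⟨k, hk⟩ := f3
    exact ⟨-k, by linear_combination -hk⟩
  · obtain ⟨k, hk⟩ := f4
    exact ⟨-k, by linear_combination -hk⟩
  · obtain ⟨k, hk⟩ := f5
    exact ⟨-k, by linear_combination -hk⟩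
  · obtain ⟨j, hj⟩ := f6
    refine ⟨-j, ?_⟩
    push_cast at hj
    linear_combination -hj
  · obtain ⟨j, hj⟩ := f7
    refine ⟨-j, ?_⟩
    push_cast at hj
    linear_combination -hj

/-- an odd power of two times an odd number is not a square -/
private theorem odd_pow_ne_sq {y : ℤ} {m e : ℕ} (hm : m % 2 = 1) :
    y ^ 2 ≠ ((2 ^ (2 * e + 1) * m : ℕ) : ℤ) := by
  induction e generalizing y with
  | zero =>
    intro h
    apply G.two_mul_odd_ne_sq hm (y := y)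
    rw [h]
    push_cast
    ring
  | succ e ih =>
    intro h
    rcases Int.even_or_odd y with ⟨j, hj⟩ | ⟨j, hj⟩
    · subst hj
      apply ih (y := j)
      push_cast at h ⊢
      have e1 : (j + j) ^ 2 = 4 * j ^ 2 := by ring
      have e2 : (2 : ℤ) ^ (2 * (e + 1) + 1) = 4 * 2 ^ (2 * e + 1) := by ring
      rw [e1, e2] at h
      linarith
    · subst hj
      have e1 : (2 * j + 1) ^ 2 = 2 * (2 * (j * j) + 2 * j) + 1 := by ring
      have e2 : (((2 ^ (2 * (e + 1) + 1) * m : ℕ)) : ℤ) = 2 * (((2 ^ (2 * (e + 1)) * m : ℕ)) : ℤ) := by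
        push_cast
        ring
      rw [e1, e2] at h
      omega

theorem thueO {A B C k : ℕ} {α β γ ρ : ℤ} (h : Dat A B C k α β γ ρ) (A1 A2 C1 C2 : ℕ)
    (hA : A1 * A2 = A) (hC : C1 * C2 = C) :
    ∃ X Y Z : ℤ, Sol A B C k X Y Z ∧ InL A1 A2 B C1 C2 k α β γ ρ X Y Z := by
  have hA0 := h.hA
  have hC0 := h.hC
  have hA1 : 0 < A1 := Nat.pos_of_ne_zero (by rintro rfl; rw [zero_mul] at hA; omega)
  have hA2 : 0 < A2 := Nat.pos_of_ne_zero (by rintro rfl; rw [mul_zero] at hA; omega)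
  have hC1 : 0 < C1 := Nat.pos_of_ne_zero (by rintro rfl; rw [zero_mul] at hC; omega)
  have hC2 : 0 < C2 := Nat.pos_of_ne_zero (by rintro rfl; rw [mul_zero] at hC; omega)
  obtain ⟨X, Y, Z, hne, hX, hY, hZ, hL⟩ := thue_auxO A1 A2 B C1 C2 k hA1 hA2 h.hB hC1 hC2 h.hk
    α β γ ρ
  refine ⟨X, Y, Z, ?_, hL⟩
  rw [hA] at hY hZ
  rw [hC] at hX hY
  push_cast at hX hY hZ
  obtain ⟨la1, la2, lb, lc1, lc2, ly, lx⟩ := hL
  have hAz : (0 : ℤ) < A := by exact_mod_cast h.hA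
  have hBz : (0 : ℤ) < B := by exact_mod_cast h.hB
  have hCz : (0 : ℤ) < C := by exact_mod_cast h.hC
  have hAc : (A1 : ℤ) * A2 = A := by exact_mod_cast hA
  have hCc : (C1 : ℤ) * C2 = C := by exact_mod_cast hC
  rw [hAc] at lb lc1 lc2
  set f : ℤ := A * X ^ 2 - B * Y ^ 2 - C * Z ^ 2 with hf
  have cABz : IsCoprime (A : ℤ) (B : ℤ) := Nat.isCoprime_iff_coprime.mpr h.cAB
  have cACz : IsCoprime (A : ℤ) (C : ℤ) := Nat.isCoprime_iff_coprime.mpr h.cAC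
  have cBCz : IsCoprime (B : ℤ) (C : ℤ) := Nat.isCoprime_iff_coprime.mpr h.cBC
  have cA12 : IsCoprime (A1 : ℤ) (A2 : ℤ) := by
    have hs : Squarefree (A1 * A2) := by rw [hA]; exact h.sA
    exact Nat.isCoprime_iff_coprime.mpr (Nat.coprime_of_squarefree_mul hs)
  have cC12 : IsCoprime (C1 : ℤ) (C2 : ℤ) := by
    have hs : Squarefree (C1 * C2) := by rw [hC]; exact h.sC
    exact Nat.isCoprime_iff_coprime.mpr (Nat.coprime_of_squarefree_mul hs)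
  have dA1A : (A1 : ℤ) ∣ A := ⟨A2, hAc.symm⟩
  have dA2A : (A2 : ℤ) ∣ A := ⟨A1, by rw [← hAc]; ring⟩
  have dC1C : (C1 : ℤ) ∣ C := ⟨C2, hCc.symm⟩
  have dC2C : (C2 : ℤ) ∣ C := ⟨C1, by rw [← hCc]; ring⟩
  have dA : (A : ℤ) ∣ f := by
    have key : ∀ D : ℤ, D ∣ A → D ∣ (B * Y - α * Z) * (B * Y + α * Z) → D ∣ f := by
      intro D hD h1
      have h2 : D ∣ (B : ℤ) * (B * Y ^ 2 + C * Z ^ 2) := by
        have e : (B : ℤ) * (B * Y ^ 2 + C * Z ^ 2)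
          = (B * Y - α * Z) * (B * Y + α * Z) + (α ^ 2 + B * C) * Z ^ 2 := by ring
        rw [e]
        exact dvd_add h1 (Dvd.dvd.mul_right (hD.trans h.rA) _)
      have hco : IsCoprime D (B : ℤ) := IsCoprime.of_isCoprime_of_dvd_left cABz hD
      have h3 := hco.dvd_of_dvd_mul_left h2
      have e : f = A * X ^ 2 - (B * Y ^ 2 + C * Z ^ 2) := by rw [hf]; ring
      rw [e]
      exact dvd_sub (hD.mul_right _) h3
    rw [← hAc]
    exact cA12.mul_dvd (key A1 dA1A (la1.mul_right _)) (key A2 dA2A (la2.mul_left _))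
  have dB : (B : ℤ) ∣ f := by
    have h1 : (B : ℤ) ∣ (A : ℤ) * (A * X ^ 2 - C * Z ^ 2) := by
      have e : (A : ℤ) * (A * X ^ 2 - C * Z ^ 2)
        = (A * X - β * Z) * (A * X + β * Z) + (β ^ 2 - A * C) * Z ^ 2 := by ring
      rw [e]
      exact dvd_add (lb.mul_right _) (h.rB.mul_right _)
    have h2 := cABz.symm.dvd_of_dvd_mul_left h1
    have e : f = (A * X ^ 2 - C * Z ^ 2) - B * (Y ^ 2) := by rw [hf]; ring
    rw [e]
    exact dvd_sub h2 (dvd_mul_right _ _)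
  have dC : (C : ℤ) ∣ f := by
    have key : ∀ D : ℤ, D ∣ C → D ∣ (A * X - γ * Y) * (A * X + γ * Y) → D ∣ f := by
      intro D hD h1
      have h2 : D ∣ (A : ℤ) * (A * X ^ 2 - B * Y ^ 2) := by
        have e : (A : ℤ) * (A * X ^ 2 - B * Y ^ 2)
          = (A * X - γ * Y) * (A * X + γ * Y) + (γ ^ 2 - A * B) * Y ^ 2 := by ring
        rw [e]
        exact dvd_add h1 (Dvd.dvd.mul_right (hD.trans h.rC) _)
      have hco : IsCoprime D (A : ℤ) := IsCoprime.of_isCoprime_of_dvd_left cACz.symm hD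
      have h3 := hco.dvd_of_dvd_mul_left h2
      have e : f = (A * X ^ 2 - B * Y ^ 2) - C * Z ^ 2 := by rw [hf]
      rw [e]
      exact dvd_sub h3 (hD.mul_right _)
    rw [← hCc]
    exact cC12.mul_dvd (key C1 dC1C (lc1.mul_right _)) (key C2 dC2C (lc2.mul_left _))
  have hk1 : 1 ≤ k := by have := h.hk; omega
  have e4 : (4 : ℤ) ^ k = 2 * 2 ^ (2 * k - 1) := by
    rw [← pow_succ', show 2 * k - 1 + 1 = 2 * k by omega, pow_mul]
    norm_num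
  have e4' : (4 : ℤ) ^ k = 2 ^ k * 2 ^ k := by
    rw [← mul_pow]
    norm_num
  have d4 : (4 ^ k : ℤ) ∣ f := by
    have h1 : (4 ^ k : ℤ) ∣ Y ^ 2 := by
      rw [e4', sq]
      exact mul_dvd_mul ly ly
    have h2 : (2 : ℤ) ∣ X + ρ * Z := by
      have : (2 : ℤ) ∣ X - ρ * Z := (dvd_pow_self 2 (by omega)).trans lx
      have e : X + ρ * Z = (X - ρ * Z) + 2 * (ρ * Z) := by ring
      rw [e]
      exact dvd_add this (dvd_mul_right _ _)
    have h3 : (4 ^ k : ℤ) ∣ (X + ρ * Z) * (X - ρ * Z) := by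
      rw [e4]
      exact mul_dvd_mul h2 lx
    have e : f = A * ((X + ρ * Z) * (X - ρ * Z)) + (A * ρ ^ 2 - C) * Z ^ 2 - B * Y ^ 2 := by
      rw [hf]
      ring
    rw [e]
    exact dvd_sub (dvd_add (h3.mul_left _) (h.r2.mul_right _)) (h1.mul_left _)
  have hodd3 : Odd (A * B * C) := by
    have a1 : Odd A := Nat.odd_iff.mpr h.oA
    have a2 : Odd B := Nat.odd_iff.mpr h.oB
    have a3 : Odd C := Nat.odd_iff.mpr h.oC
    exact (a1.mul a2).mul a3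
  have dall : (4 ^ k * (A * B * C) : ℤ) ∣ f := by
    have h1 : (A * B : ℤ) ∣ f := cABz.mul_dvd dA dB
    have h2 : (A * B * C : ℤ) ∣ f := (IsCoprime.mul_left cACz cBCz).mul_dvd h1 dC
    have hco : IsCoprime (4 ^ k : ℤ) (A * B * C : ℤ) := by
      have : Nat.Coprime (4 ^ k) (A * B * C) := by
        have h2 : Nat.Coprime (2 ^ 2) (A * B * C) := Nat.Coprime.pow_left 2
          (Nat.coprime_two_left.mpr hodd3)
        exact Nat.Coprime.pow_left k (by simpa using h2)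
      have := Nat.isCoprime_iff_coprime.mpr this
      push_cast at this
      exact this
    exact hco.mul_dvd d4 h2
  have hBCo : (B * C) % 2 = 1 := by rw [Nat.mul_mod, h.oB, h.oC]
  have hACo : (A * C) % 2 = 1 := by rw [Nat.mul_mod, h.oA, h.oC]
  have u1 : f ≤ 4 ^ k * (A * B * C) := by
    have : (A : ℤ) * X ^ 2 ≤ A * (4 ^ k * B * C) := mul_le_mul_of_nonneg_left hX hAz.le
    have p1 : (0 : ℤ) ≤ B * Y ^ 2 := by positivity
    have p2 : (0 : ℤ) ≤ C * Z ^ 2 := by positivity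
    have e : (A : ℤ) * (4 ^ k * B * C) = 4 ^ k * (A * B * C) := by ring
    rw [hf]; linarith
  have u2 : -(4 ^ k * (A * B * C)) ≤ f := by
    have a1 : (B : ℤ) * Y ^ 2 ≤ B * (2 ^ (2 * k - 1) * A * C) :=
      mul_le_mul_of_nonneg_left hY hBz.le
    have a2 : (C : ℤ) * Z ^ 2 ≤ C * (2 ^ (2 * k - 1) * A * B) :=
      mul_le_mul_of_nonneg_left hZ hCz.le
    have p1 : (0 : ℤ) ≤ A * X ^ 2 := by positivity
    have e : (4 : ℤ) ^ k * (A * B * C) = B * (2 ^ (2 * k - 1) * A * C) +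
        C * (2 ^ (2 * k - 1) * A * B) := by rw [e4]; ring
    rw [e, hf]; linarith
  have n1 : f ≠ 4 ^ k * (A * B * C) := by
    intro hh
    have p1 : (0 : ℤ) ≤ B * Y ^ 2 := by positivity
    have p2 : (0 : ℤ) ≤ C * Z ^ 2 := by positivity
    have q1 : (A : ℤ) * X ^ 2 ≤ A * (4 ^ k * B * C) := mul_le_mul_of_nonneg_left hX hAz.le
    have e : (A : ℤ) * (4 ^ k * B * C) = 4 ^ k * (A * B * C) := by ring
    have z2 : (C : ℤ) * Z ^ 2 = 0 := by rw [hf] at hh; linarith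
    have z1 : (A : ℤ) * X ^ 2 = A * (4 ^ k * B * C) := by rw [hf] at hh; linarith
    have hZ0 : Z = 0 := by
      rcases mul_eq_zero.mp z2 with hc | hc
      · exact absurd hc hCz.ne'
      · exact pow_eq_zero_iff (n := 2) (by norm_num) |>.mp hc
    have hX2 : X ^ 2 = 4 ^ k * B * C := mul_left_cancel₀ hAz.ne' z1
    rw [hZ0, mul_zero, sub_zero] at lx
    obtain ⟨X1, rfl⟩ := lx
    have e5 : (2 ^ (2 * k - 1) : ℤ) ^ 2 = 4 ^ k * 4 ^ (k - 1) := by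
      rw [← pow_mul, ← pow_add, show (4 : ℤ) = 2 ^ 2 by norm_num, ← pow_mul]
      congr 1
      omega
    rw [mul_pow, e5] at hX2
    have e6 : (4 ^ (k - 1) : ℤ) * X1 ^ 2 = ((B * C : ℕ) : ℤ) := by
      have : (4 : ℤ) ^ k * (4 ^ (k - 1) * X1 ^ 2) = 4 ^ k * ((B * C : ℕ) : ℤ) := by
        push_cast
        linarith
      exact mul_left_cancel₀ (by positivity) this
    have h2d : (2 : ℤ) ∣ ((B * C : ℕ) : ℤ) := by
      rw [← e6]
      exact Dvd.dvd.mul_right ((by norm_num : (2 : ℤ) ∣ 4).trans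
        (dvd_pow_self 4 (by have := h.hk; omega))) _
    omega
  have n2 : f ≠ -(4 ^ k * (A * B * C)) := by
    intro hh
    have a1 : (B : ℤ) * Y ^ 2 ≤ B * (2 ^ (2 * k - 1) * A * C) :=
      mul_le_mul_of_nonneg_left hY hBz.le
    have a2 : (C : ℤ) * Z ^ 2 ≤ C * (2 ^ (2 * k - 1) * A * B) :=
      mul_le_mul_of_nonneg_left hZ hCz.le
    have p1 : (0 : ℤ) ≤ A * X ^ 2 := by positivity
    have e : (4 : ℤ) ^ k * (A * B * C) = B * (2 ^ (2 * k - 1) * A * C) +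
        C * (2 ^ (2 * k - 1) * A * B) := by rw [e4]; ring
    have z1 : (B : ℤ) * Y ^ 2 = B * (2 ^ (2 * k - 1) * A * C) := by
      rw [hf, e] at hh
      linarith
    have hY2 : Y ^ 2 = 2 ^ (2 * k - 1) * A * C := mul_left_cancel₀ hBz.ne' z1
    apply odd_pow_ne_sq (y := Y) (e := k - 1) hACo
    rw [hY2, show 2 * (k - 1) + 1 = 2 * k - 1 by omega]
    push_cast
    ring
  have hf0 : f = 0 := by
    obtain ⟨t, ht⟩ := dall
    have hpos : (0 : ℤ) < 4 ^ k * (A * B * C) := by positivity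
    set M : ℤ := 4 ^ k * (A * B * C) with hM
    have t1 : t < 1 := by
      by_contra hcon
      push Not at hcon
      have : M ≤ f := by rw [ht]; nlinarith
      exact n1 (le_antisymm u1 this)
    have t2 : -1 < t := by
      by_contra hcon
      push Not at hcon
      have : f ≤ -M := by rw [ht]; nlinarith
      exact n2 (le_antisymm this u2)
    have : t = 0 := by omega
    rw [ht, this, mul_zero]
  exact ⟨hne, by linarith, hX, hY, hZ⟩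

end Pool.Agent.Work.MP_8efaaa_nt.O
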